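import Pool.Agent.Run7.h514.WD.Main

/-!
# The Euler factors of compatible families
-/

set_option autoImplicit false
set_option linter.unusedSectionVars false

namespace Run7.h514.WD

open Polynomial Module TensorProduct

section one

variable {W : Type} [Group W] [TopologicalSpace W] {F : Type} [Field F] [CharZero F]
  {v : W →* Multiplicative ℤ} {q : ℕ} {V : Type} [AddCommGroup V] [Module F V]
  [FiniteDimensional F V]

lemma trace_proj {S : Submodule F V} {g : Module.End F V} (hg : ∀ x ∈ S, g x ∈ S)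
    {π : Module.End F V} (h1 : ∀ x, π x ∈ S) (h2 : ∀ x ∈ S, π x = x) :
    LinearMap.trace F V (g * π) = LinearMap.trace F S (g.restrict hg) := by
  have h3 : ∀ x, (g * π) x ∈ S := fun x => hg _ (h1 x)
  rw [← LinearMap.trace_restrict_eq_of_forall_mem S (g * π) h3]
  congr 1
  apply LinearMap.ext
  intro x
  apply Subtype.ext
  show g (π x) = g x
  rw [h2 x x.2]

/-- the mean value over the finite quotient `K / J` -/
noncomputable def avg (M : WDRep F v q V) (K J : Subgroup W) [Fintype (K ⧸ J.subgroupOf K)] :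
    Module.End F V :=
  ((Fintype.card (K ⧸ J.subgroupOf K) : F)⁻¹) •
    ∑ c : K ⧸ J.subgroupOf K, M.r ((c.out : K) : W)

variable {K J : Subgroup W} [Fintype (K ⧸ J.subgroupOf K)]

lemma avg_fix (M : WDRep F v q V) {x : V} (hx : ∀ g ∈ K, M.r g x = x) : avg M K J x = x := by
  unfold avg
  rw [LinearMap.smul_apply, LinearMap.sum_apply]
  rw [Finset.sum_congr rfl fun c _ => hx _ (c.out : K).2, Finset.sum_const, Finset.card_univ,
    ← Nat.cast_smul_eq_nsmul F, smul_smul, inv_mul_cancel₀, one_smul]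
  exact_mod_cast Fintype.card_ne_zero

lemma act_out (M : WDRep F v q V) (hJ : ∀ g ∈ J, M.r g = 1) {a b : K}
    (h : (a : K ⧸ J.subgroupOf K) = b) : M.r (a : W) = M.r (b : W) := by
  have h1 := QuotientGroup.eq.1 h
  rw [Subgroup.mem_subgroupOf] at h1
  have h3 : (b : W) = (a : W) * ((a⁻¹ * b : K) : W) := by
    rw [Subgroup.coe_mul, Subgroup.coe_inv, mul_inv_cancel_left]
  rw [h3, map_mul, hJ _ h1, mul_one]

lemma avg_mem (M : WDRep F v q V) (hJ : ∀ g ∈ J, M.r g = 1) (x : V) {τ : W} (hτ : τ ∈ K) :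
    M.r τ (avg M K J x) = avg M K J x := by
  unfold avg
  rw [LinearMap.smul_apply, map_smul, LinearMap.sum_apply, map_sum]
  congr 1
  let t : K := ⟨τ, hτ⟩
  conv_rhs => rw [← Equiv.sum_comp (MulAction.toPerm t : Equiv.Perm (K ⧸ J.subgroupOf K))]
  refine Finset.sum_congr rfl fun c _ => ?_
  rw [← Module.End.mul_apply, ← map_mul]
  have h1 : τ * ((c.out : K) : W) = ((t * c.out : K) : W) := rfl
  rw [h1]
  congr 1
  apply act_out M hJ
  rw [MulAction.toPerm_apply]
  have h2 : (((t • c).out : K) : K ⧸ J.subgroupOf K) = t • c := Quotient.out_eq _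
  rw [h2]
  conv_rhs => rw [← Quotient.out_eq c]
  rfl

lemma fixKer_stable (M : WDRep F v q V) (j : ℕ) {H : Subgroup W} {h : W} (hh : h ∈ H) :
    ∀ x ∈ M.fixKer j H, M.r h x ∈ M.fixKer j H := by
  rintro x ⟨hx, hx'⟩
  refine ⟨by rw [M.pow_twist, hx, map_zero, smul_zero], fun g hg h1 => ?_⟩
  have h2 : g * h = h * (h⁻¹ * g * h) := by group
  rw [← Module.End.mul_apply, ← map_mul, h2, map_mul, Module.End.mul_apply]
  congr 1
  apply hx' _ (H.mul_mem (H.mul_mem (H.inv_mem hh) hg) hh)
  rw [map_mul, map_mul, h1, mul_one, map_inv, inv_mul_cancel]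

/-- The traces of the powers of the Frobenius on the inertia invariants are mean values of traces. -/
theorem trace_fixKer (M : WDRep F v q V) (j : ℕ) {H : Subgroup W} (hK : K = H ⊓ v.ker)
    (hJ : ∀ g ∈ J, M.r g = 1) {h : W} (hh : h ∈ H) {T : W → F}
    (hT : ∀ g, LinearMap.trace F (LinearMap.ker (M.N ^ j)) (M.onKer j g) = T g) (k : ℕ) :
    LinearMap.trace F (M.fixKer j H) ((M.r h).restrict (fixKer_stable M j hh) ^ k) =
      (Fintype.card (K ⧸ J.subgroupOf K) : F)⁻¹ *
        ∑ c : K ⧸ J.subgroupOf K, T (h ^ k * ((c.out : K) : W)) := by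
  classical
  obtain ⟨π0, hπ0⟩ := (LinearMap.ker (M.N ^ j)).subtype.exists_leftInverse_of_injective
    (LinearMap.ker (M.N ^ j)).ker_subtype
  let π : Module.End F V := (LinearMap.ker (M.N ^ j)).subtype ∘ₗ π0
  have hπ1 : ∀ x, π x ∈ LinearMap.ker (M.N ^ j) := fun x => (π0 x).2
  have hπ2 : ∀ x ∈ LinearMap.ker (M.N ^ j), π x = x := fun x hx =>
    congrArg Subtype.val (LinearMap.congr_fun hπ0 ⟨x, hx⟩)
  have hKmem : ∀ g, g ∈ K ↔ g ∈ H ∧ v g = 1 := by
    intro g
    rw [hK, Subgroup.mem_inf, MonoidHom.mem_ker]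
  have hpow : (M.r h).restrict (fixKer_stable M j hh) ^ k =
      (M.r (h ^ k)).restrict (fixKer_stable M j (H.pow_mem hh k)) := by
    induction k with
    | zero =>
      apply LinearMap.ext
      intro x
      apply Subtype.ext
      show (x : V) = M.r (h ^ 0) x
      rw [pow_zero, map_one, Module.End.one_apply]
    | succ n ih =>
      rw [pow_succ', ih]
      apply LinearMap.ext
      intro x
      apply Subtype.ext
      show M.r h (M.r (h ^ n) x) = M.r (h ^ (n + 1)) x
      rw [pow_succ', map_mul, Module.End.mul_apply]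
  have h1 : LinearMap.trace F (M.fixKer j H)
      ((M.r (h ^ k)).restrict (fixKer_stable M j (H.pow_mem hh k))) =
      LinearMap.trace F V (M.r (h ^ k) * (avg M K J * π)) := by
    rw [trace_proj]
    · intro x
      refine ⟨?_, fun g hg h1 => ?_⟩
      · rw [Module.End.mul_apply]
        unfold avg
        rw [LinearMap.smul_apply, map_smul, LinearMap.sum_apply, map_sum]
        have h3 : ∀ c : K ⧸ J.subgroupOf K, (M.N ^ j) (M.r ((c.out : K) : W) (π x)) = 0 := by
          intro c
          have h4 : (M.N ^ j) (π x) = 0 := hπ1 x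
          rw [M.pow_twist, h4, map_zero, smul_zero]
        rw [Finset.sum_eq_zero fun c _ => h3 c, smul_zero]
      · exact avg_mem M hJ (π x) ((hKmem g).2 ⟨hg, h1⟩)
    · intro x hx
      rw [Module.End.mul_apply, hπ2 x hx.1, avg_fix M (fun g hg => hx.2 g ((hKmem g).1 hg).1
        ((hKmem g).1 hg).2)]
  rw [hpow, h1]
  unfold avg
  rw [smul_mul_assoc, mul_smul_comm, map_smul, smul_eq_mul, Finset.sum_mul, Finset.mul_sum, map_sum]
  congr 1
  refine Finset.sum_congr rfl fun c _ => ?_
  rw [← mul_assoc, ← map_mul, trace_proj (M.stable j _) hπ1 hπ2]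
  exact hT _

end one

section family

variable {W : Type} [Group W] [TopologicalSpace W] {v : W →* Multiplicative ℤ} {q : ℕ}
  {Λ : Type} {F : Λ → Type} [∀ l, Field (F l)] [∀ l, CharZero (F l)]
  {V : Λ → Type} [∀ l, AddCommGroup (V l)] [∀ l, Module (F l) (V l)]
  [∀ l, FiniteDimensional (F l) (V l)]

lemma restrict_unit {F : Type} [Field F] {V : Type} [AddCommGroup V] [Module F V]
    [FiniteDimensional F V] {S : Submodule F V} {A : Module.End F V} (hA : ∀ x ∈ S, A x ∈ S)
    (h : Function.Injective A) : IsUnit (A.restrict hA) := by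
  rw [LinearMap.isUnit_iff_ker_eq_bot, LinearMap.ker_eq_bot]
  intro x y hxy
  apply Subtype.ext
  apply h
  exact congrArg Subtype.val hxy

lemma rep_injective {F V : Type} [Field F] [AddCommGroup V] [Module F V] (r : W →* Module.End F V)
    (g : W) : Function.Injective (r g) := by
  intro x y hxy
  have h1 := congrArg (r g⁻¹) hxy
  rwa [← Module.End.mul_apply, ← Module.End.mul_apply, ← map_mul, inv_mul_cancel, map_one] at h1

/-- The Euler factors of compatible families, and of their twists, do not depend on `ℓ`. -/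
theorem factors_of_compatible (hW : IsWeilGroup W v) (hq : ∀ l, (q : F l) ≠ 0)
    (M : ∀ l, WDRep (F l) v q (V l)) (h : Compatible M) (n : ℕ) :
    IndependentFactors fun l => (M l).tensor (steinberg hW (F l) q (hq l) n) := by
  classical
  have := hW.top
  intro H hHo hHf
  by_cases hΛ : Nonempty Λ
  swap
  · exact ⟨0, fun l => absurd ⟨l⟩ hΛ⟩
  obtain ⟨l0⟩ := hΛ
  obtain ⟨h0, hh0⟩ := exists_frobenius hW hHf
  -- uniform kernel
  obtain ⟨J, hJ⟩ : ∃ J, J = (M l0).small := ⟨_, rfl⟩
  obtain ⟨K, hK⟩ : ∃ K, K = H ⊓ v.ker := ⟨_, rfl⟩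
  have hJl : ∀ l, ∀ g ∈ J, (M l).r g = 1 := by
    intro l g hg
    rw [hJ] at hg
    exact ((M l).mem_small.1 (h.small_le hW l0 l hg)).2
  have hfin : Finite (K ⧸ J.subgroupOf K) := by
    have h1 := hW.finite_quotient (J := J) (by rw [hJ]; exact (M l0).small_open hW)
    have h2 : (J.subgroupOf v.ker).FiniteIndex := Subgroup.finiteIndex_of_finite_quotient
    have h3 : J.IsFiniteRelIndex v.ker := ⟨h2.index_ne_zero⟩
    have hKv : K ≤ v.ker := by
      rw [hK]
      exact inf_le_right
    have h4 : J.IsFiniteRelIndex K := Subgroup.isFiniteRelIndex_of_le_right J hKv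
    exact Subgroup.finite_quotient_of_finiteIndex
  have := Fintype.ofFinite (K ⧸ J.subgroupOf K)
  -- the traces on the kernel
  choose P hP using fun g => h (n + 1) g
  have hT : ∀ l g, LinearMap.trace (F l) (LinearMap.ker ((M l).N ^ (n + 1)))
      ((M l).onKer (n + 1) g) = ((-(P g).nextCoeff : ℚ) : F l) := fun l g => trace_rat (hP g l)
  obtain ⟨χ, hχ⟩ := exists_charpoly
    (fun l => ((M l).r h0).restrict (fixKer_stable (M l) (n + 1) hh0.1))
    (fun l => restrict_unit _ (rep_injective (M l).r h0))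
    (fun k => (Fintype.card (K ⧸ J.subgroupOf K) : ℚ)⁻¹ *
      ∑ c : K ⧸ J.subgroupOf K, (-(P (h0 ^ k * ((c.out : K) : W))).nextCoeff))
    (fun l k _ => by
      rw [trace_fixKer (M l) (n + 1) hK (hJl l) hh0.1 (hT l) k]
      push_cast
      rfl)
  obtain ⟨f, hf⟩ : ∃ f : ℕ, f = (Multiplicative.toAdd (v h0)).toNat := ⟨_, rfl⟩
  refine ⟨expand ℚ f χ.reverse, fun l h1 hh1 => ?_⟩
  -- the degrees of `h1` and `h0` are equal
  have hdeg : Multiplicative.toAdd (v h1) = Multiplicative.toAdd (v h0) :=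
    Int.dvd_antisymm hh1.2.1.le hh0.2.1.le (hh1.2.2 _ hh0.1) (hh0.2.2 _ hh1.1)
  have hdiff : v (h0⁻¹ * h1) = 1 := by
    rw [MonoidHom.map_mul, MonoidHom.map_inv, Multiplicative.toAdd.injective hdeg, inv_mul_cancel]
  obtain ⟨φ, hφ⟩ := exists_equiv (M l) hW (hq l) n H
  have hst : ∀ x ∈ ((M l).tensor (steinberg hW (F l) q (hq l) n)).inv H,
      ((M l).tensor (steinberg hW (F l) q (hq l) n)).r h1 x ∈
        ((M l).tensor (steinberg hW (F l) q (hq l) n)).inv H := by
    intro x hx
    have h2 := fixKer_stable ((M l).tensor (steinberg hW (F l) q (hq l) n)) 1 hh1.1 x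
      ⟨by rw [pow_one]; exact hx.1, hx.2⟩
    refine ⟨?_, h2.2⟩
    have h3 := h2.1
    rwa [pow_one] at h3
  refine ⟨(((M l).tensor (steinberg hW (F l) q (hq l) n)).r h1).restrict hst, fun x => rfl, ?_⟩
  have hA : ((((M l).tensor (steinberg hW (F l) q (hq l) n)).r h1).restrict hst).charpoly =
      (((M l).r h0).restrict (fixKer_stable (M l) (n + 1) hh0.1)).charpoly := by
    refine charpoly_congr φ (fun x => ?_)
    apply Subtype.ext
    show (φ _ : V l) = (M l).r h0 (φ x : V l)
    rw [hφ, hφ]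
    show coords (F l) (V l) n
      (((M l).tensor (steinberg hW (F l) q (hq l) n)).r h1 (x : Tens (F l) (V l) (Coord (F l) n))) 0
        = _
    rw [coords_r, ← hφ]
    have h2 : (M l).r (h0⁻¹ * h1) (φ x : V l) = (φ x : V l) :=
      (φ x).2.2 _ (H.mul_mem (H.inv_mem hh0.1) hh1.1) hdiff
    have h3 : h1 = h0 * (h0⁻¹ * h1) := by group
    have h4 : (M l).r h1 (φ x : V l) = (M l).r h0 (φ x : V l) := by
      rw [h3, MonoidHom.map_mul, Module.End.mul_apply, h2]
    rw [h4]
    simp
  rw [hA, hχ l, hdeg, ← hf, map_expand]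
  congr 1
  unfold reverse
  rw [natDegree_map, reflect_map]

end family

end Run7.h514.WD
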