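import Mathlib.LinearAlgebra.TensorProduct.Pi
import Mathlib.RingTheory.TensorProduct.Finite
import Mathlib.LinearAlgebra.Charpoly.Basic
import Mathlib.LinearAlgebra.Charpoly.ToMatrix
import Mathlib.RepresentationTheory.Basic
import Mathlib.Topology.Algebra.Group.Basic
import Mathlib.Topology.Algebra.OpenSubgroup
import Mathlib.GroupTheory.Index
import Mathlib.Algebra.Polynomial.Reverse
import Mathlib.Algebra.Polynomial.Expand
import Mathlib.Analysis.Complex.Basic
import Mathlib.NumberTheory.Padics.PadicNumbers

/-!
# Weil-Deligne representations and their Euler factors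

Definitions. `W` is the Weil group of `ℚ_p` (or of a finite extension `K` of `ℚ_p`, with residue field
with `q` elements).
-/

set_option autoImplicit false

namespace Run7.h514.WD

open Polynomial Module TensorProduct

/-- The structure of the Weil group `W` of a `p`-adic field `K` which is used: `W` is a topological
group with a surjective homomorphism `v` to `ℤ` (`v g = n` if `g` acts on the residue field as the
`n`-th power of the geometric Frobenius), whose kernel, the inertia group, is open and compact. -/
structure IsWeilGroup (W : Type) [Group W] [TopologicalSpace W] (v : W →* Multiplicative ℤ) :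
    Prop where
  top : IsTopologicalGroup W
  surj : Function.Surjective v
  isOpen_inertia : IsOpen (v.ker : Set W)
  isCompact_inertia : IsCompact (v.ker : Set W)

section

variable {W : Type} [Group W] [TopologicalSpace W]

/-- A Weil-Deligne representation `(r, N)` on the vector space `V`, for the Weil group `W` of a field
with residue field with `q` elements: an open subgroup of the inertia group acts trivially by `r`, and
`N` is nilpotent with `N r(g) = q ^ v(g) r(g) N`. -/
structure WDRep (F : Type) [Field F] (v : W →* Multiplicative ℤ) (q : ℕ) (V : Type)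
    [AddCommGroup V] [Module F V] where
  r : W →* Module.End F V
  N : Module.End F V
  twist : ∀ g x, N (r g x) = (q : F) ^ Multiplicative.toAdd (v g) • r g (N x)
  nilpotent : IsNilpotent N
  smooth : ∃ U : Subgroup W, IsOpen (U : Set W) ∧ ∀ g ∈ U, v g = 1 ∧ r g = 1

variable {F : Type} [Field F] {v : W →* Multiplicative ℤ} {q : ℕ} {V V' : Type} [AddCommGroup V]
  [Module F V] [AddCommGroup V'] [Module F V']

/-- The tensor product of two vector spaces. -/
def Tens (F V V' : Type) [Field F] [AddCommGroup V] [Module F V] [AddCommGroup V'] [Module F V'] :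
    Type :=
  V ⊗[F] V'

noncomputable instance : AddCommGroup (Tens F V V') := inferInstanceAs (AddCommGroup (V ⊗[F] V'))

noncomputable instance : Module F (Tens F V V') := inferInstanceAs (Module F (V ⊗[F] V'))

instance [FiniteDimensional F V] [FiniteDimensional F V'] : FiniteDimensional F (Tens F V V') :=
  inferInstanceAs (FiniteDimensional F (V ⊗[F] V'))

/-- The endomorphism `A ⊗ B`. -/
noncomputable def tensMap (A : Module.End F V) (B : Module.End F V') :
    Module.End F (Tens F V V') :=
  TensorProduct.map A B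

lemma tensMap_one : tensMap (1 : Module.End F V) (1 : Module.End F V') = 1 :=
  TensorProduct.map_one

lemma tensMap_mul (A A' : Module.End F V) (B B' : Module.End F V') :
    tensMap (A * A') (B * B') = tensMap A B * tensMap A' B' :=
  TensorProduct.map_mul _ _ _ _

lemma tensMap_pow (A : Module.End F V) (B : Module.End F V') (k : ℕ) :
    tensMap A B ^ k = tensMap (A ^ k) (B ^ k) :=
  TensorProduct.map_pow _ _ _

lemma tensMap_zero_left (B : Module.End F V') : tensMap (0 : Module.End F V) B = 0 :=
  TensorProduct.map_zero_left _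

lemma tensMap_zero_right (A : Module.End F V) : tensMap A (0 : Module.End F V') = 0 :=
  TensorProduct.map_zero_right _

lemma map_twist {A N : Module.End F V} {B N' : Module.End F V'} {c : F}
    (h : ∀ x, N (A x) = c • A (N x)) (h' : ∀ x, N' (B x) = c • B (N' x)) (z : V ⊗[F] V') :
    (TensorProduct.map N 1 + TensorProduct.map 1 N' : Module.End F (V ⊗[F] V'))
        (TensorProduct.map A B z) = c • TensorProduct.map A B
          ((TensorProduct.map N 1 + TensorProduct.map 1 N' : Module.End F (V ⊗[F] V')) z) := by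
  induction z using TensorProduct.induction_on with
  | zero => simp
  | tmul x y =>
    simp only [TensorProduct.map_tmul, LinearMap.add_apply,
      Module.End.one_apply, h, h', map_add, smul_add, TensorProduct.smul_tmul',
      TensorProduct.tmul_smul]
  | add x y hx hy =>
    rw [map_add, map_add, hx, hy, map_add, map_add, smul_add]

lemma tensMap_twist {A N : Module.End F V} {B N' : Module.End F V'} {c : F}
    (h : ∀ x, N (A x) = c • A (N x)) (h' : ∀ x, N' (B x) = c • B (N' x)) (z : Tens F V V') :
    (tensMap N 1 + tensMap 1 N' : Module.End F (Tens F V V')) (tensMap A B z) =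
      c • tensMap A B ((tensMap N 1 + tensMap 1 N' : Module.End F (Tens F V V')) z) :=
  map_twist h h' z

lemma tens_nilpotent {N : Module.End F V} {N' : Module.End F V'} (h : IsNilpotent N)
    (h' : IsNilpotent N') :
    IsNilpotent (tensMap N 1 + tensMap 1 N' : Module.End F (Tens F V V')) := by
  refine Commute.isNilpotent_add ?_ ?_ ?_
  · show _ * _ = _ * _
    rw [← tensMap_mul, ← tensMap_mul, mul_one, mul_one, one_mul, one_mul]
  · obtain ⟨k, hk⟩ := h
    exact ⟨k, by rw [tensMap_pow, hk, tensMap_zero_left]⟩
  · obtain ⟨k, hk⟩ := h'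
    exact ⟨k, by rw [tensMap_pow, hk, tensMap_zero_right]⟩

/-- The tensor product of two representations. -/
noncomputable def tensRep (r : W →* Module.End F V) (r' : W →* Module.End F V') :
    W →* Module.End F (Tens F V V') where
  toFun g := tensMap (r g) (r' g)
  map_one' := by rw [map_one, map_one, tensMap_one]
  map_mul' g h := by rw [map_mul, map_mul, tensMap_mul]

lemma tens_smooth {M : WDRep F v q V} {M' : WDRep F v q V'} :
    ∃ U : Subgroup W, IsOpen (U : Set W) ∧ ∀ g ∈ U, v g = 1 ∧ tensRep M.r M'.r g = 1 := by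
  obtain ⟨U, hU, hU'⟩ := M.smooth
  obtain ⟨U₁, hU₁, hU₁'⟩ := M'.smooth
  refine ⟨U ⊓ U₁, hU.inter hU₁, fun g hg => ⟨(hU' g hg.1).1, ?_⟩⟩
  show tensMap (M.r g) (M'.r g) = 1
  rw [(hU' g hg.1).2, (hU₁' g hg.2).2, tensMap_one]

/-- The tensor product of two Weil-Deligne representations, with the monodromy operator
`N ⊗ 1 + 1 ⊗ N'`. -/
noncomputable def WDRep.tensor (M : WDRep F v q V) (M' : WDRep F v q V') :
    WDRep F v q (Tens F V V') where
  r := tensRep M.r M'.r
  N := tensMap M.N 1 + tensMap 1 M'.N
  twist g := tensMap_twist (M.twist g) (M'.twist g)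
  nilpotent := tens_nilpotent M.nilpotent M'.nilpotent
  smooth := tens_smooth

/-- The space `F ^ (n + 1)`. -/
def Coord (F : Type) (n : ℕ) : Type := Fin (n + 1) → F

noncomputable instance {n : ℕ} : AddCommGroup (Coord F n) :=
  inferInstanceAs (AddCommGroup (Fin (n + 1) → F))

noncomputable instance {n : ℕ} : Module F (Coord F n) :=
  inferInstanceAs (Module F (Fin (n + 1) → F))

instance {n : ℕ} : FiniteDimensional F (Coord F n) :=
  inferInstanceAs (FiniteDimensional F (Fin (n + 1) → F))

/-- The operator which takes the vector `(x_i)` to `((i+1) x_(i+1))`. -/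
noncomputable def shift (F : Type) [Field F] (n : ℕ) : Module.End F (Coord F n) where
  toFun x := fun i => if h : i.1 + 1 < n + 1 then ((i.1 + 1 : ℕ) : F) * x ⟨i.1 + 1, h⟩ else 0
  map_add' x y := by
    funext i
    show (if h : i.1 + 1 < n + 1 then ((i.1 + 1 : ℕ) : F) * (x ⟨i.1 + 1, h⟩ + y ⟨i.1 + 1, h⟩)
      else 0) = (if h : i.1 + 1 < n + 1 then ((i.1 + 1 : ℕ) : F) * x ⟨i.1 + 1, h⟩ else 0) +
        (if h : i.1 + 1 < n + 1 then ((i.1 + 1 : ℕ) : F) * y ⟨i.1 + 1, h⟩ else 0)
    by_cases h : i.1 + 1 < n + 1
    · simp only [dif_pos h, mul_add]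
    · simp only [dif_neg h, add_zero]
  map_smul' c x := by
    funext i
    show (if h : i.1 + 1 < n + 1 then ((i.1 + 1 : ℕ) : F) * (c * x ⟨i.1 + 1, h⟩) else 0) =
      c * (if h : i.1 + 1 < n + 1 then ((i.1 + 1 : ℕ) : F) * x ⟨i.1 + 1, h⟩ else 0)
    by_cases h : i.1 + 1 < n + 1
    · simp only [dif_pos h]
      ring
    · simp only [dif_neg h, mul_zero]

lemma shift_apply {n : ℕ} (x : Coord F n) (i : Fin (n + 1)) :
    shift F n x i = if h : i.1 + 1 < n + 1 then ((i.1 + 1 : ℕ) : F) * x ⟨i.1 + 1, h⟩ else 0 := rfl

/-- The operator which multiplies the coordinate `x_i` by `q ^ (i m)`. -/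
noncomputable def diag (F : Type) [Field F] (q n : ℕ) (m : ℤ) : Module.End F (Coord F n) where
  toFun x := fun i => (q : F) ^ (i.1 * m : ℤ) * x i
  map_add' x y := by
    funext i
    exact mul_add _ _ _
  map_smul' c x := by
    funext i
    exact mul_left_comm _ _ _

lemma diag_apply {q n : ℕ} (m : ℤ) (x : Coord F n) (i : Fin (n + 1)) :
    diag F q n m x i = (q : F) ^ (i.1 * m : ℤ) * x i := rfl

lemma diag_zero {q n : ℕ} : diag F q n 0 = 1 := by
  apply LinearMap.ext
  intro x
  funext i
  rw [diag_apply, mul_zero, zpow_zero, one_mul]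
  rfl

lemma diag_add {q : ℕ} (hq : (q : F) ≠ 0) {n : ℕ} (m m' : ℤ) :
    diag F q n (m + m') = diag F q n m * diag F q n m' := by
  apply LinearMap.ext
  intro x
  funext i
  rw [Module.End.mul_apply, diag_apply, diag_apply, diag_apply, mul_add, zpow_add₀ hq, mul_assoc]

lemma diag_shift {q : ℕ} (hq : (q : F) ≠ 0) {n : ℕ} (m : ℤ) (x : Coord F n) :
    shift F n (diag F q n m x) = (q : F) ^ m • diag F q n m (shift F n x) := by
  funext i
  rw [shift_apply]
  show _ = (q : F) ^ m * diag F q n m (shift F n x) i
  rw [diag_apply, shift_apply]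
  by_cases h : i.1 + 1 < n + 1
  · rw [dif_pos h, dif_pos h, diag_apply, ← mul_assoc ((q : F) ^ m), ← zpow_add₀ hq]
    push_cast
    rw [show m + (i.1 : ℤ) * m = ((i.1 : ℤ) + 1) * m by ring]
    ring
  · rw [dif_neg h, dif_neg h, mul_zero, mul_zero]

lemma shift_nilpotent (F : Type) [Field F] (n : ℕ) : IsNilpotent (shift F n) := by
  have key : ∀ k : ℕ, ∀ x : Coord F n, ∀ i : Fin (n + 1), n < i.1 + k →
      (shift F n ^ k) x i = 0 := by
    intro k
    induction k with
    | zero =>
      intro x i hi
      exact absurd hi (by have := i.2; omega)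
    | succ k ih =>
      intro x i hi
      rw [pow_succ', Module.End.mul_apply, shift_apply]
      by_cases h : i.1 + 1 < n + 1
      · rw [dif_pos h, ih x ⟨i.1 + 1, h⟩ (by show n < i.1 + 1 + k; omega), mul_zero]
      · rw [dif_neg h]
  refine ⟨n + 1, ?_⟩
  apply LinearMap.ext
  intro x
  funext i
  exact key (n + 1) x i (by omega)

/-- The representation of the Weil group with `g e_i = q ^ (i v(g)) e_i`. -/
noncomputable def stRep (v : W →* Multiplicative ℤ) (F : Type) [Field F] (q : ℕ)
    (hq : (q : F) ≠ 0) (n : ℕ) : W →* Module.End F (Coord F n) where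
  toFun g := diag F q n (Multiplicative.toAdd (v g))
  map_one' := by rw [map_one, toAdd_one, diag_zero]
  map_mul' g h := by rw [MonoidHom.map_mul, toAdd_mul, diag_add hq]

lemma st_smooth (hW : IsWeilGroup W v) (F : Type) [Field F] (q : ℕ) (hq : (q : F) ≠ 0) (n : ℕ) :
    ∃ U : Subgroup W, IsOpen (U : Set W) ∧ ∀ g ∈ U, v g = 1 ∧ stRep v F q hq n g = 1 := by
  refine ⟨v.ker, hW.isOpen_inertia, fun g hg => ⟨hg, ?_⟩⟩
  have hg1 : v g = 1 := hg
  show diag F q n (Multiplicative.toAdd (v g)) = 1
  rw [hg1, toAdd_one, diag_zero]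

/-- The Weil-Deligne representation of the motive `Sym^n h^1(E)`, for an elliptic curve `E` with split
multiplicative reduction: it has the basis `e_0, …, e_n` with `g e_i = q ^ (i v(g)) e_i` and
`N e_i = i e_(i-1)` (for `n = 1`, `H^1(E)` is an extension of `ℚ_ℓ(-1)` by `ℚ_ℓ` which is not
potentially trivial; `e_i` is the product of `e_1 ^ i` and `e_0 ^ (n-i)`). In coordinates, `N` takes
the vector `(x_i)` to `((i+1) x_(i+1))`. -/
noncomputable def steinberg (hW : IsWeilGroup W v) (F : Type) [Field F] (q : ℕ) (hq : (q : F) ≠ 0)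
    (n : ℕ) : WDRep F v q (Coord F n) where
  r := stRep v F q hq n
  N := shift F n
  twist _ := diag_shift hq _
  nilpotent := shift_nilpotent F n
  smooth := st_smooth hW F q hq n

/-- The Weil-Deligne representation of `Sym^n h^1(E)`, with coefficients of characteristic zero. -/
noncomputable def symE (hW : IsWeilGroup W v) {q : ℕ} (hq : 1 < q) (F : Type) [Field F]
    [CharZero F] (n : ℕ) : WDRep F v q (Coord F n) :=
  steinberg hW F q (Nat.cast_ne_zero.2 (by omega)) n

/-- The inertia invariants over the finite extension `K'` which corresponds to the subgroup `H`: the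
vectors `x` with `N x = 0` which are fixed by `r(g)` for all `g` in the inertia group of `K'`. If
`(r, N)` is the Weil-Deligne representation of an `ℓ`-adic representation, they are its invariants
under the inertia group of `K'`. -/
def WDRep.inv (M : WDRep F v q V) (H : Subgroup W) : Submodule F V where
  carrier := {x | M.N x = 0 ∧ ∀ g ∈ H, v g = 1 → M.r g x = x}
  add_mem' := by
    rintro x y ⟨hx, hx'⟩ ⟨hy, hy'⟩
    refine ⟨by rw [map_add, hx, hy, add_zero], fun g hg h1 => ?_⟩
    rw [map_add, hx' g hg h1, hy' g hg h1]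
  zero_mem' := ⟨map_zero _, fun g _ _ => map_zero _⟩
  smul_mem' := by
    rintro c x ⟨hx, hx'⟩
    refine ⟨by rw [map_smul, hx, smul_zero], fun g hg h1 => ?_⟩
    rw [map_smul, hx' g hg h1]

/-- `h` is a geometric Frobenius element of the subgroup `H`: it generates `H` modulo inertia. Then
`f = v(h)` is the residue degree of the extension which corresponds to `H`. -/
def IsFrobenius (v : W →* Multiplicative ℤ) (H : Subgroup W) (h : W) : Prop :=
  h ∈ H ∧ 0 < Multiplicative.toAdd (v h) ∧
    ∀ g ∈ H, Multiplicative.toAdd (v h) ∣ Multiplicative.toAdd (v g)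

/-- `P(T) = det (1 - T^f A | S)`: the subspace `S` is stable under `A`, and `P(T)` is the reverse of the
characteristic polynomial of the restriction `B` of `A` to `S`, i.e. `det (1 - T B)`, with `T ^ f`
instead of `T`. -/
def IsDetOn [FiniteDimensional F V] (S : Submodule F V) (A : Module.End F V) (f : ℕ)
    (P : F[X]) : Prop :=
  ∃ B : Module.End F S, (∀ x, (B x : V) = A x) ∧ P = expand F f B.charpoly.reverse

/-- `P(T) = det (1 - T^f h | V ^ I')`, where `I'` is the inertia group of `K'`, `h` is a geometric
Frobenius element and `f` is the residue degree of `K'` over `K`. -/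
def WDRep.IsEulerFactor [FiniteDimensional F V] (M : WDRep F v q V) (H : Subgroup W)
    (P : F[X]) : Prop :=
  ∀ h, IsFrobenius v H h → IsDetOn (M.inv H) (M.r h) (Multiplicative.toAdd (v h)).toNat P

/-- The kernel of `N ^ j` is stable under `r(g)`. -/
lemma WDRep.pow_twist (M : WDRep F v q V) (g : W) (j : ℕ) (x : V) :
    (M.N ^ j) (M.r g x) = ((q : F) ^ Multiplicative.toAdd (v g)) ^ j • M.r g ((M.N ^ j) x) := by
  induction j generalizing x with
  | zero => simp
  | succ j ih =>
    rw [pow_succ', Module.End.mul_apply, ih, map_smul, M.twist, smul_smul, ← pow_succ,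
      Module.End.mul_apply]

lemma WDRep.stable (M : WDRep F v q V) (j : ℕ) (g : W) :
    ∀ x ∈ LinearMap.ker (M.N ^ j), M.r g x ∈ LinearMap.ker (M.N ^ j) := by
  intro x hx
  rw [LinearMap.mem_ker] at hx ⊢
  rw [M.pow_twist, hx, map_zero, smul_zero]

/-- The action of `g` on the kernel of `N ^ j`. -/
noncomputable def WDRep.onKer (M : WDRep F v q V) (j : ℕ) (g : W) :
    Module.End F (LinearMap.ker (M.N ^ j)) :=
  (M.r g).restrict (M.stable j g)

/-- The space `V ⊗ Ω`. -/
def ExtV (Ω F V : Type) [Field Ω] [Field F] [Algebra F Ω] [AddCommGroup V] [Module F V] : Type :=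
  Ω ⊗[F] V

section ext

variable (Ω : Type) [Field Ω] [Algebra F Ω]

noncomputable instance : AddCommGroup (ExtV Ω F V) := inferInstanceAs (AddCommGroup (Ω ⊗[F] V))

noncomputable instance : Module Ω (ExtV Ω F V) := inferInstanceAs (Module Ω (Ω ⊗[F] V))

instance [FiniteDimensional F V] : FiniteDimensional Ω (ExtV Ω F V) :=
  inferInstanceAs (FiniteDimensional Ω (Ω ⊗[F] V))

/-- The extension of an endomorphism to `V ⊗ Ω`. -/
noncomputable def extMap (A : Module.End F V) : Module.End Ω (ExtV Ω F V) :=
  A.baseChange Ω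

lemma extMap_one : extMap Ω (1 : Module.End F V) = 1 := LinearMap.baseChange_one _ _

lemma extMap_mul (A B : Module.End F V) : extMap Ω (A * B) = extMap Ω A * extMap Ω B :=
  LinearMap.baseChange_mul _ _

lemma extMap_pow (A : Module.End F V) (k : ℕ) : extMap Ω A ^ k = extMap Ω (A ^ k) :=
  (LinearMap.baseChange_pow _ _ _ _ _).symm

lemma extMap_zero : extMap Ω (0 : Module.End F V) = 0 := LinearMap.baseChange_zero

lemma extMap_sub (A B : Module.End F V) : extMap Ω (A - B) = extMap Ω A - extMap Ω B :=
  LinearMap.baseChange_sub _ _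

lemma baseChange_twist {A N : Module.End F V} {q : ℕ} {m : ℤ}
    (h : ∀ x, N (A x) = (q : F) ^ m • A (N x)) (z : Ω ⊗[F] V) :
    N.baseChange Ω (A.baseChange Ω z) = (q : Ω) ^ m • A.baseChange Ω (N.baseChange Ω z) := by
  induction z using TensorProduct.induction_on with
  | zero => simp
  | tmul c x =>
    simp only [LinearMap.baseChange_tmul, h, TensorProduct.tmul_smul]
    rw [← algebraMap_smul Ω ((q : F) ^ m), map_zpow₀, map_natCast]
  | add x y hx hy =>
    rw [map_add, map_add, hx, hy, map_add, map_add, smul_add]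

lemma extMap_twist {A N : Module.End F V} {q : ℕ} {m : ℤ}
    (h : ∀ x, N (A x) = (q : F) ^ m • A (N x)) (z : ExtV Ω F V) :
    extMap Ω N (extMap Ω A z) = (q : Ω) ^ m • extMap Ω A (extMap Ω N z) :=
  baseChange_twist Ω h z

/-- The extension of a representation to `V ⊗ Ω`. -/
noncomputable def extRep (r : W →* Module.End F V) : W →* Module.End Ω (ExtV Ω F V) where
  toFun g := extMap Ω (r g)
  map_one' := by rw [map_one, extMap_one]
  map_mul' g h := by rw [map_mul, extMap_mul]

lemma ext_nilpotent {N : Module.End F V} (h : IsNilpotent N) : IsNilpotent (extMap Ω N) := by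
  obtain ⟨k, hk⟩ := h
  exact ⟨k, by rw [extMap_pow, hk, extMap_zero]⟩

lemma ext_smooth (M : WDRep F v q V) :
    ∃ U : Subgroup W, IsOpen (U : Set W) ∧ ∀ g ∈ U, v g = 1 ∧ extRep Ω M.r g = 1 := by
  obtain ⟨U, hU, hU'⟩ := M.smooth
  refine ⟨U, hU, fun g hg => ⟨(hU' g hg).1, ?_⟩⟩
  show extMap Ω (M.r g) = 1
  rw [(hU' g hg).2, extMap_one]

/-- The extension of the coefficients from `F` to the field `Ω`. -/
noncomputable def WDRep.extendScalars (M : WDRep F v q V) : WDRep Ω v q (ExtV Ω F V) where
  r := extRep Ω M.r
  N := extMap Ω M.N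
  twist g := extMap_twist Ω (M.twist g)
  nilpotent := ext_nilpotent Ω M.nilpotent
  smooth := ext_smooth Ω M

end ext

/-- The subspace `S` is stable under the representation `ρ`. -/
def Stab {G k U : Type} [Group G] [Field k] [AddCommGroup U] [Module k U]
    (ρ : G →* Module.End k U) (S : Submodule k U) : Prop :=
  ∀ g, ∀ x ∈ S, ρ g x ∈ S

/-- The representation is semisimple: every stable subspace has a stable complement. -/
def Semis {G k U : Type} [Group G] [Field k] [AddCommGroup U] [Module k U]
    (ρ : G →* Module.End k U) : Prop :=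
  ∀ S : Submodule k U, Stab ρ S → ∃ T : Submodule k U, Stab ρ T ∧ IsCompl S T

/-- The endomorphisms `A` and `B` commute, and their difference is nilpotent. -/
def IsClose (A B : Module.End F V) : Prop := Commute A B ∧ IsNilpotent (A - B)

/-- `M` and `M'` have the same monodromy operator, and `r'(g)` commutes with `r(g)` and differs from it by
a nilpotent endomorphism, for all `g`. -/
def WDRep.CloseTo (M M' : WDRep F v q V) : Prop :=
  M'.N = M.N ∧ ∀ g, IsClose (M'.r g) (M.r g)

/-- `M'` is the Frobenius-semisimplification of `M ⊗ Ω`: it has the same monodromy operator, the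
representation `r'` is semisimple, and `r'(g)` commutes with `r(g)` and differs from it by a nilpotent
endomorphism, for all `g` (so `r'(g)` is the semisimple part of `r(g)`). -/
def WDRep.IsFrobeniusSemisimplification {Ω : Type} [Field Ω] [Algebra F Ω]
    (M : WDRep F v q V) (M' : WDRep Ω v q (ExtV Ω F V)) : Prop :=
  (M.extendScalars Ω).CloseTo M' ∧ Semis M'.r

/-- The isomorphism `e` carries `A` to `B`. -/
def Carries (e : V ≃ₗ[F] V') (A : Module.End F V) (B : Module.End F V') : Prop :=
  ∀ x, e (A x) = B (e x)

/-- The two Weil-Deligne representations are isomorphic. -/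
def WDRep.Isomorphic (M : WDRep F v q V) (M' : WDRep F v q V') : Prop :=
  ∃ e : V ≃ₗ[F] V', (∀ g, Carries e (M.r g) (M'.r g)) ∧ Carries e M.N M'.N

/-- All complex roots of the nonzero rational polynomial `P` have absolute value `q ^ (k / 2)`. -/
def IsWeil (q : ℕ) (k : ℤ) (P : ℚ[X]) : Prop :=
  P ≠ 0 ∧ ∀ z : ℂ, aeval z P = 0 → ‖z‖ ^ 2 = (q : ℝ) ^ k

lemma IsWeil.mul {q : ℕ} {k : ℤ} {P Q : ℚ[X]} (hP : IsWeil q k P) (hQ : IsWeil q k Q) :
    IsWeil q k (P * Q) := by
  refine ⟨mul_ne_zero hP.1 hQ.1, fun z hz => ?_⟩
  rw [map_mul, mul_eq_zero] at hz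
  rcases hz with h | h
  · exact hP.2 z h
  · exact hQ.2 z h

/-- The part of `V` on which all eigenvalues of `A` are `q`-Weil numbers of weight `k`: the vectors
which are killed by `P(A)` for a rational polynomial `P` all of whose complex roots have absolute
value `q ^ (k / 2)`. -/
def weightPart [CharZero F] (q : ℕ) (k : ℤ) (A : Module.End F V) : Submodule F V where
  carrier := {x | ∃ P : ℚ[X], IsWeil q k P ∧ aeval A (P.map (algebraMap ℚ F)) x = 0}
  add_mem' := by
    rintro x y ⟨P, hP, hx⟩ ⟨Q, hQ, hy⟩
    refine ⟨P * Q, hP.mul hQ, ?_⟩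
    rw [Polynomial.map_mul, map_mul, map_add]
    have h1 : (aeval A (P.map (algebraMap ℚ F)) * aeval A (Q.map (algebraMap ℚ F))) x = 0 := by
      rw [← map_mul, mul_comm, map_mul, Module.End.mul_apply, hx, map_zero]
    rw [h1, Module.End.mul_apply, hy, map_zero, add_zero]
  zero_mem' := ⟨1, ⟨one_ne_zero, fun z hz => by simp at hz⟩, map_zero _⟩
  smul_mem' := by
    rintro c x ⟨P, hP, hx⟩
    exact ⟨P, hP, by rw [map_smul, hx, smul_zero]⟩

/-- The part `V_k` of `V` on which the element `g` of the Weil group has weight `k`: its eigenvalues have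
absolute value `q ^ (k v(g) / 2)`. -/
def WDRep.part [CharZero F] (M : WDRep F v q V) (g : W) (k : ℤ) : Submodule F V :=
  weightPart q (k * Multiplicative.toAdd (v g)) (M.r g)

/-- The weight-monodromy conjecture, in weight `w`: for every `g` with `v(g) > 0`, `V` is the sum of
the parts `V_k` on which `g` has weight `k`, and `N ^ j` is a bijection from `V_(w+j)` to `V_(w-j)` for
all `j ≥ 0`. -/
def WDRep.WeightMonodromy [CharZero F] (M : WDRep F v q V) (w : ℤ) : Prop :=
  ∀ g, 0 < Multiplicative.toAdd (v g) → (⨆ k : ℤ, M.part g k = ⊤) ∧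
    ∀ j : ℕ, Set.BijOn (M.N ^ j) (M.part g (w + j)) (M.part g (w - j))

/-- The Frobenius-semisimplifications of `M` and `M'` are isomorphic over each field `Ω` which contains
their fields of coefficients `F` and `F'`. -/
def SameSemisimplification {F' : Type} [Field F'] {V' : Type} [AddCommGroup V'] [Module F' V']
    (M : WDRep F v q V) (M' : WDRep F' v q V') : Prop :=
  ∀ (Ω : Type) [Field Ω] [Algebra F Ω] [Algebra F' Ω] (M₁ : WDRep Ω v q (ExtV Ω F V))
    (M₂ : WDRep Ω v q (ExtV Ω F' V')), M.IsFrobeniusSemisimplification M₁ →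
      M'.IsFrobeniusSemisimplification M₂ → M₁.Isomorphic M₂

/-- The kernels of `r` and `r'` in the inertia group are equal. -/
def SameInertiaKernel {F' : Type} [Field F'] {V' : Type} [AddCommGroup V'] [Module F' V']
    (M : WDRep F v q V) (M' : WDRep F' v q V') : Prop :=
  ∀ g : W, v g = 1 → (M.r g = 1 ↔ M'.r g = 1)

end

section

variable {W : Type} [Group W] [TopologicalSpace W] {v : W →* Multiplicative ℤ} {q : ℕ}
  {Λ : Type} {F : Λ → Type} [∀ l, Field (F l)] [∀ l, CharZero (F l)]
  {V : Λ → Type} [∀ l, AddCommGroup (V l)] [∀ l, Module (F l) (V l)]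
  [∀ l, FiniteDimensional (F l) (V l)]

/-- Independence of `ℓ` of the Euler factors of the family `M`, over all finite extensions: for each
open subgroup `H` of finite index, `det (1 - T^f h | V_ℓ ^ I')` is one polynomial with rational
coefficients. -/
def IndependentFactors (M : ∀ l, WDRep (F l) v q (V l)) : Prop :=
  ∀ H : Subgroup W, IsOpen (H : Set W) → H.FiniteIndex →
    ∃ P : ℚ[X], ∀ l, (M l).IsEulerFactor H (P.map (algebraMap ℚ (F l)))

/-- Q1 for all motives `M ⊗ Sym^n h^1(E) ⊗ h(Spec L)`: independence of `ℓ` of the Euler factors of the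
twists of the family `M` by `Sym^n h^1(E)`, over all finite extensions. -/
def TwistsIndependent (hW : IsWeilGroup W v) (hq : 1 < q) (M : ∀ l, WDRep (F l) v q (V l)) :
    Prop :=
  ∀ n : ℕ, IndependentFactors fun l => (M l).tensor (symE hW hq (F l) n)

/-- Independence of `ℓ` of the Weil-Deligne representations `M ℓ` (up to Frobenius-semisimplification and
extension of the coefficients): the characteristic polynomial of each element `g` of the Weil group on
the kernel of each power of `N` is one polynomial with rational coefficients. -/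
def Compatible (M : ∀ l, WDRep (F l) v q (V l)) : Prop :=
  ∀ (j : ℕ) (g : W), ∃ P : ℚ[X], ∀ l, ((M l).onKer j g).charpoly = P.map (algebraMap ℚ (F l))

/-- Any two of the Weil-Deligne representations `M ℓ` and `M ℓ'` have the same
Frobenius-semisimplification, the same kernel of `r` in the inertia group, and the weight-monodromy
conjecture holds for `M ℓ` if and only if it holds for `M ℓ'`. -/
def SameForAll (M : ∀ l, WDRep (F l) v q (V l)) : Prop :=
  ∀ l l' : Λ, SameSemisimplification (M l) (M l') ∧ SameInertiaKernel (M l) (M l') ∧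
    ∀ w : ℤ, (M l).WeightMonodromy w ↔ (M l').WeightMonodromy w

end

end Run7.h514.WD
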