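import Pool.Agent.R401.Tr4
import Pool.Agent.Run7.h514.WD.Defs

/-!
# Characteristic polynomials and traces in families
-/

set_option autoImplicit false
set_option linter.unusedSectionVars false

namespace Run7.h514.WD

open Polynomial Module

section one

variable {F : Type} [Field F] {U U' : Type} [AddCommGroup U] [Module F U] [FiniteDimensional F U]
  [AddCommGroup U'] [Module F U'] [FiniteDimensional F U']

lemma charpoly_congr (e : U ≃ₗ[F] U') {A : Module.End F U} {B : Module.End F U'}
    (h : ∀ x, e (A x) = B (e x)) : A.charpoly = B.charpoly := by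
  have h1 : B = e.conj A := by
    apply LinearMap.ext
    intro y
    rw [LinearEquiv.conj_apply_apply, h, LinearEquiv.apply_symm_apply]
  rw [h1, LinearEquiv.charpoly_conj]

lemma coeff_zero_ne {g : Module.End F U} (hg : IsUnit g) : g.charpoly.coeff 0 ≠ 0 := by
  intro h0
  have h1 := LinearMap.det_eq_sign_charpoly_coeff g
  rw [h0, mul_zero] at h1
  have h2 : IsUnit (LinearMap.det g) := hg.map LinearMap.det
  exact h2.ne_zero h1

lemma natDegree_reverse_eq {c : F[X]} (hc : c.coeff 0 ≠ 0) :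
    c.reverse.natDegree = c.natDegree := by
  rw [reverse_natDegree, natTrailingDegree_eq_zero_of_constantCoeff_ne_zero hc, Nat.sub_zero]

variable [CharZero F]

/-- The characteristic polynomial is determined by `det (1 - T A)`. -/
lemma charpoly_of_reverse {c : F[X]} (hc : c.coeff 0 ≠ 0) {P : ℚ[X]}
    (h : c.reverse = P.map (algebraMap ℚ F)) : c = P.reverse.map (algebraMap ℚ F) := by
  have h1 : P.natDegree = c.natDegree := by
    rw [← natDegree_reverse_eq hc, h, natDegree_map]
  ext k
  rw [coeff_map, coeff_reverse, h1, ← coeff_map, ← h, coeff_reverse, revAt_invol]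

lemma trace_rat {g : Module.End F U} {χ : ℚ[X]} (h : g.charpoly = χ.map (algebraMap ℚ F)) :
    LinearMap.trace F U g = ((-χ.nextCoeff : ℚ) : F) := by
  classical
  let b := Module.finBasis F U
  rw [LinearMap.trace_eq_matrix_trace F b, Matrix.trace_eq_neg_charpoly_nextCoeff,
    LinearMap.charpoly_toMatrix, h, nextCoeff_map (algebraMap ℚ F).injective]
  simp

/-- A unipotent endomorphism of finite order is the identity. -/
lemma unip {A : Module.End F U} {n : ℕ} (h1 : A.charpoly = (X - 1) ^ n) {m : ℕ} (hm : 0 < m)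
    (h2 : A ^ m = 1) : A = 1 := by
  have hm0 : (m : F) ≠ 0 := Nat.cast_ne_zero.2 hm.ne'
  obtain ⟨q, hq⟩ : ∃ q : F[X], q = ∑ i ∈ Finset.range m, X ^ i := ⟨_, rfl⟩
  have hq1 : q * (X - 1) = X ^ m - 1 := by
    rw [hq]
    exact geom_sum_mul X m
  have hq2 : (X - C 1 : F[X]) ∣ q - C (m : F) := by
    rw [dvd_iff_isRoot, IsRoot.def, eval_sub, eval_C, hq, eval_finsetSum]
    simp
  obtain ⟨s, hs⟩ := hq2
  have hcop : IsCoprime q ((X - 1 : F[X]) ^ n) := by
    apply IsCoprime.pow_right
    refine ⟨C (m : F)⁻¹, -(C (m : F)⁻¹ * s), ?_⟩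
    have h3 : q = (X - 1) * s + C (m : F) := by
      rw [← map_one C, ← hs]
      ring
    rw [h3]
    have h4 : (C (m : F)⁻¹ * C (m : F) : F[X]) = 1 := by
      rw [← C_mul, inv_mul_cancel₀ hm0, C_1]
    linear_combination h4
  obtain ⟨a, b, hab⟩ := hcop
  have h3 : aeval A ((X - 1 : F[X]) ^ n) = 0 := by
    rw [← h1]
    exact LinearMap.aeval_self_charpoly A
  have h4 : aeval A (q * (X - 1)) = 0 := by
    rw [hq1]
    simp [h2]
  have h5 : (X - 1 : F[X]) = a * (q * (X - 1)) + b * ((X - 1) ^ n * (X - 1)) := by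
    linear_combination (-(X - 1 : F[X])) * hab
  have h6 : aeval A (X - 1 : F[X]) = 0 := by
    rw [h5, map_add, map_mul _ a, map_mul _ b, map_mul _ ((X - 1 : F[X]) ^ n), h4, h3, mul_zero,
      zero_mul, mul_zero, add_zero]
  simpa [sub_eq_zero] using h6

end one

section family

variable {Λ : Type} {F : Λ → Type} [∀ l, Field (F l)] [∀ l, CharZero (F l)]
  {U : Λ → Type} [∀ l, AddCommGroup (U l)] [∀ l, Module (F l) (U l)]
  [∀ l, FiniteDimensional (F l) (U l)]

/-- The traces of the powers determine the characteristic polynomials. -/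
lemma exists_charpoly (g : ∀ l, Module.End (F l) (U l)) (hg : ∀ l, IsUnit (g l)) (τ : ℕ → ℚ)
    (hτ : ∀ l k, 0 < k → LinearMap.trace (F l) (U l) (g l ^ k) = (τ k : F l)) :
    ∃ χ : ℚ[X], ∀ l, (g l).charpoly = χ.map (algebraMap ℚ (F l)) := by
  classical
  by_cases hΛ : Nonempty Λ
  swap
  · exact ⟨0, fun l => absurd ⟨l⟩ hΛ⟩
  obtain ⟨l0⟩ := hΛ
  let b := fun l => Module.finBasis (F l) (U l)
  let A := fun l => LinearMap.toMatrix (b l) (b l) (g l)
  have hA : ∀ l k, (A l).charpolyRev.coeff k = (Pool.Agent.R401.Tr4.cf τ k : F l) := by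
    intro l k
    apply Pool.Agent.R401.Tr4.coeff_eq
    intro k
    rw [← hτ l (k + 1) (Nat.succ_pos k), LinearMap.trace_eq_matrix_trace (F l) (b l),
      ← LinearMap.toMatrix_pow]
  have hch : ∀ l, (A l).charpoly = (g l).charpoly := fun l => LinearMap.charpoly_toMatrix _ _
  have hcoeff : ∀ l k, (g l).charpoly.coeff k =
      (Pool.Agent.R401.Tr4.cf τ (revAt (finrank (F l) (U l)) k) : F l) := by
    intro l k
    rw [← hA l, ← Matrix.reverse_charpoly, coeff_reverse, Matrix.charpoly_natDegree_eq_dim,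
      Fintype.card_fin, revAt_invol, hch]
  have htop : ∀ l, Pool.Agent.R401.Tr4.cf τ (finrank (F l) (U l)) ≠ 0 := by
    intro l h0
    apply coeff_zero_ne (hg l)
    rw [hcoeff, revAt_le (Nat.zero_le _), Nat.sub_zero, h0, Rat.cast_zero]
  have hbig : ∀ l k, finrank (F l) (U l) < k → Pool.Agent.R401.Tr4.cf τ k = 0 := by
    intro l k hk
    have h1 : (A l).charpolyRev.coeff k = 0 := by
      apply coeff_eq_zero_of_natDegree_lt
      have := Pool.Agent.R401.Tr4.natDegree_charpolyRev (A l)
      omega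
    rw [hA] at h1
    exact_mod_cast h1
  have hdim : ∀ l, finrank (F l) (U l) = finrank (F l0) (U l0) := by
    intro l
    rcases lt_trichotomy (finrank (F l) (U l)) (finrank (F l0) (U l0)) with h | h | h
    · exact absurd (hbig l _ h) (htop l0)
    · exact h
    · exact absurd (hbig l0 _ h) (htop l)
  obtain ⟨n, hn⟩ : ∃ n, finrank (F l0) (U l0) = n := ⟨_, rfl⟩
  refine ⟨∑ k ∈ Finset.range (n + 1), monomial k (Pool.Agent.R401.Tr4.cf τ (revAt n k)),
    fun l => ?_⟩
  ext k
  rw [coeff_map, finsetSum_coeff]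
  simp only [coeff_monomial]
  rw [Finset.sum_ite_eq', hcoeff, hdim, hn]
  by_cases hk : k ∈ Finset.range (n + 1)
  · rw [if_pos hk]
    simp
  · rw [if_neg hk]
    rw [Finset.mem_range] at hk
    rw [revAt_eq_self_of_lt (by omega), hbig l0 k (by omega)]
    simp

variable {W : Type} [Group W] {v : W →* Multiplicative ℤ}

lemma isUnit_rep {F U : Type} [Field F] [AddCommGroup U] [Module F U] (ρ : W →* Module.End F U)
    (g : W) : IsUnit (ρ g) :=
  ⟨⟨ρ g, ρ g⁻¹, by rw [← map_mul, mul_inv_cancel, map_one],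
    by rw [← map_mul, inv_mul_cancel, map_one]⟩, rfl⟩

/-- If the characteristic polynomials of the elements of positive degree are rational and independent
of `ℓ`, this holds for all elements. -/
theorem extend (hv : Function.Surjective v) (ρ : ∀ l, W →* Module.End (F l) (U l))
    (h : ∀ g, 0 < Multiplicative.toAdd (v g) →
      ∃ P : ℚ[X], ∀ l, (ρ l g).charpoly = P.map (algebraMap ℚ (F l))) (g : W) :
    ∃ P : ℚ[X], ∀ l, (ρ l g).charpoly = P.map (algebraMap ℚ (F l)) := by
  classical
  by_cases hΛ : Nonempty Λ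
  swap
  · exact ⟨0, fun l => absurd ⟨l⟩ hΛ⟩
  obtain ⟨l0⟩ := hΛ
  have htr : ∀ g, ∃ t : ℚ, ∀ l, LinearMap.trace (F l) (U l) (ρ l g) = (t : F l) := by
    intro g
    obtain ⟨w, hw⟩ := hv (Multiplicative.ofAdd (|Multiplicative.toAdd (v g)| + 1))
    have hdw : Multiplicative.toAdd (v w) = |Multiplicative.toAdd (v g)| + 1 := by rw [hw]; rfl
    have hpos : 0 < Multiplicative.toAdd (v w) := by rw [hdw]; positivity
    obtain ⟨f, hf⟩ := h w hpos
    have hi : ∀ i : ℕ, ∃ t : ℚ, ∀ l,
        LinearMap.trace (F l) (U l) (ρ l g * ρ l w ^ (i + 1)) = (t : F l) := by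
      intro i
      have h1 : 0 < Multiplicative.toAdd (v (g * w ^ (i + 1))) := by
        rw [MonoidHom.map_mul, MonoidHom.map_pow, toAdd_mul, toAdd_pow, hdw, nsmul_eq_mul]
        have h2 := neg_abs_le (Multiplicative.toAdd (v g))
        have h3 : (0 : ℤ) ≤ (i : ℤ) * (|Multiplicative.toAdd (v g)| + 1) := by positivity
        push_cast
        linarith
      obtain ⟨P, hP⟩ := h _ h1
      refine ⟨-P.nextCoeff, fun l => ?_⟩
      rw [← trace_rat (hP l), MonoidHom.map_mul, MonoidHom.map_pow]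
    choose t ht using hi
    have hf0 : f.coeff 0 ≠ 0 := by
      intro h0
      apply coeff_zero_ne (isUnit_rep (ρ l0) w)
      rw [hf, coeff_map, h0, map_zero]
    refine ⟨-(f.coeff 0)⁻¹ * ∑ i ∈ Finset.range f.natDegree, f.coeff (i + 1) * t i, fun l => ?_⟩
    have h1 : aeval (ρ l w) (f.map (algebraMap ℚ (F l))) = 0 := by
      rw [← hf l]
      exact LinearMap.aeval_self_charpoly _
    rw [aeval_eq_sum_range, natDegree_map, Finset.sum_range_succ', pow_zero] at h1
    have h2 := congrArg (fun T => LinearMap.trace (F l) (U l) (ρ l g * T)) h1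
    simp only [mul_add, map_add, Finset.mul_sum, map_sum, mul_smul_comm, map_smul, mul_one,
      mul_zero, map_zero, ht, coeff_map, smul_eq_mul] at h2
    have h3 : (algebraMap ℚ (F l)) (f.coeff 0) ≠ 0 := by
      rw [Ne, map_eq_zero]
      exact hf0
    apply mul_left_cancel₀ h3
    have h4 : (algebraMap ℚ (F l)) (f.coeff 0) = (f.coeff 0 : F l) := rfl
    have h5 : ∀ i, (algebraMap ℚ (F l)) (f.coeff i) = (f.coeff i : F l) := fun _ => rfl
    simp only [h5] at h2 h3 ⊢
    push_cast
    rw [← mul_assoc, mul_neg, mul_inv_cancel₀ h3, neg_one_mul]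
    linear_combination h2
  choose t ht using htr
  exact exists_charpoly (fun l => ρ l g) (fun l => isUnit_rep (ρ l) g) (fun k => t (g ^ k))
    (fun l k _ => by rw [← ht, MonoidHom.map_pow])

end family

end Run7.h514.WD
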