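import Pool.Agent.Run7.h514.WD.BN
import Pool.Agent.Run7.h514.WD.Avg

/-!
# Extension of isomorphisms along the images of the powers of `N`
-/

set_option autoImplicit false
set_option linter.unusedSectionVars false

namespace Run7.h514.WD

open Module

section proj

variable {G : Type} [Group G] {k : Type} [Field k] {V : Type} [AddCommGroup V] [Module k V]
  {ρ : G →* Module.End k V}

lemma Stab.inf {S T : Submodule k V} (hS : Stab ρ S) (hT : Stab ρ T) : Stab ρ (S ⊓ T) :=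
  fun g x hx => ⟨hS g x hx.1, hT g x hx.2⟩

lemma Stab.sup {S T : Submodule k V} (hS : Stab ρ S) (hT : Stab ρ T) : Stab ρ (S ⊔ T) := by
  intro g x hx
  obtain ⟨y, hy, z, hz, rfl⟩ := Submodule.mem_sup.1 hx
  rw [map_add]
  exact Submodule.add_mem_sup (hS g y hy) (hT g z hz)

/-- An equivariant projection onto `S` which is zero on `T`. -/
lemma exists_proj (hρ : Semis ρ) {S T : Submodule k V} (hS : Stab ρ S) (hT : Stab ρ T)
    (hd : Disjoint S T) : ∃ p : Module.End k V, (∀ x, p x ∈ S) ∧ (∀ x ∈ S, p x = x) ∧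
      (∀ x ∈ T, p x = 0) ∧ ∀ g x, p (ρ g x) = ρ g (p x) := by
  obtain ⟨Y, hY, hc⟩ := hρ (S ⊔ T) (hS.sup hT)
  have hTY : Stab ρ (T ⊔ Y) := hT.sup hY
  have hc' : IsCompl S (T ⊔ Y) := by
    refine ⟨?_, ?_⟩
    · rw [disjoint_iff, eq_bot_iff]
      intro x hx
      obtain ⟨t, ht, y, hy, hty⟩ := Submodule.mem_sup.1 hx.2
      have h1 : y ∈ (S ⊔ T) ⊓ Y := by
        refine ⟨?_, hy⟩
        have h2 : y = x - t := by rw [← hty]; abel
        rw [h2]
        exact Submodule.sub_mem _ (Submodule.mem_sup_left hx.1) (Submodule.mem_sup_right ht)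
      rw [hc.inf_eq_bot, Submodule.mem_bot] at h1
      have h3 : x ∈ S ⊓ T := ⟨hx.1, by rw [← hty, h1, add_zero]; exact ht⟩
      rw [hd.eq_bot] at h3
      exact h3
    · rw [codisjoint_iff, ← sup_assoc]
      exact hc.sup_eq_top
  let p : Module.End k V := S.subtype ∘ₗ Submodule.projectionOnto S (T ⊔ Y) hc'
  have hp1 : ∀ x, p x ∈ S := fun x => (Submodule.projectionOnto S (T ⊔ Y) hc' x).2
  have hp2 : ∀ x ∈ S, p x = x := fun x hx =>
    congrArg Subtype.val (Submodule.projectionOnto_apply_left hc' ⟨x, hx⟩)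
  have hp3 : ∀ x ∈ T ⊔ Y, p x = 0 := fun x hx =>
    congrArg Subtype.val (Submodule.projectionOnto_apply_right hc' ⟨x, hx⟩)
  refine ⟨p, hp1, hp2, fun x hx => hp3 x (Submodule.mem_sup_left hx), fun g x => ?_⟩
  have hx : x ∈ S ⊔ (T ⊔ Y) := by
    rw [hc'.sup_eq_top]
    exact Submodule.mem_top
  obtain ⟨y, hy, z, hz, rfl⟩ := Submodule.mem_sup.1 hx
  rw [map_add, map_add, hp2 _ (hS g y hy), hp3 _ (hTY g z hz), map_add, hp2 y hy, hp3 z hz,
    add_zero, add_zero]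

/-- Stable subspaces of semisimple representations are semisimple. -/
lemma semis_restrict (hρ : Semis ρ) {S : Submodule k V}
    {σ : G →* Module.End k S} (hσ : ∀ g (x : S), (σ g x : V) = ρ g x) : Semis σ := by
  intro U hU
  have h1 : Stab ρ (U.map S.subtype) := by
    rintro g x ⟨y, hy, rfl⟩
    exact ⟨σ g y, hU g y hy, hσ g y⟩
  obtain ⟨p, hp1, hp2, -, hp4⟩ := exists_proj hρ h1 (T := ⊥)
    (by intro g x hx; rw [Submodule.mem_bot] at hx ⊢; rw [hx, map_zero]) disjoint_bot_right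
  refine ⟨(LinearMap.ker p).comap S.subtype, ?_, ?_, ?_⟩
  · intro g x hx
    rw [Submodule.mem_comap, LinearMap.mem_ker] at hx ⊢
    show p (σ g x : V) = 0
    rw [hσ, hp4]
    have h2 : p (x : V) = 0 := hx
    rw [h2, map_zero]
  · rw [disjoint_iff, eq_bot_iff]
    rintro x ⟨hx, hx'⟩
    have h2 : p (x : V) = 0 := hx'
    have h3 : p (x : V) = x := hp2 _ ⟨x, hx, rfl⟩
    rw [h3] at h2
    rw [Submodule.mem_bot]
    exact Subtype.ext h2
  · rw [codisjoint_iff, eq_top_iff]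
    intro x _
    obtain ⟨y, hy, hyx⟩ := hp1 (x : V)
    rw [show x = y + (x - y) by abel]
    refine Submodule.add_mem_sup hy ?_
    rw [Submodule.mem_comap, LinearMap.mem_ker]
    show p ((x : V) - (y : V)) = 0
    have h3 : (y : V) = p (x : V) := hyx
    have h4 : p (y : V) = (y : V) := hp2 _ ⟨y, hy, rfl⟩
    rw [map_sub, h4, h3, sub_self]

/-- the representation on a stable subspace -/
noncomputable def res (ρ : G →* Module.End k V) {S : Submodule k V} (hS : Stab ρ S) :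
    G →* Module.End k S where
  toFun g := (ρ g).restrict (hS g)
  map_one' := by
    apply LinearMap.ext
    intro x
    apply Subtype.ext
    show ρ 1 (x : V) = x
    rw [map_one, Module.End.one_apply]
  map_mul' g h := by
    apply LinearMap.ext
    intro x
    apply Subtype.ext
    show ρ (g * h) (x : V) = ρ g (ρ h x)
    rw [map_mul, Module.End.mul_apply]

end proj

section ext

variable {W : Type} [Group W] [TopologicalSpace W] {Ω : Type} [Field Ω] [CharZero Ω]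
  {v : W →* Multiplicative ℤ} {q : ℕ} {V V' : Type} [AddCommGroup V] [Module Ω V]
  [AddCommGroup V'] [Module Ω V'] [FiniteDimensional Ω V] [FiniteDimensional Ω V']

/-- The linear map `f` is an injective morphism of Weil-Deligne representations from `A` to `A'`. -/
structure IsStepMap (M : WDRep Ω v q V) (M' : WDRep Ω v q V') (A : Submodule Ω V)
    (A' : Submodule Ω V') (f : V →ₗ[Ω] V') : Prop where
  equi : ∀ g, ∀ x ∈ A, f (M.r g x) = M'.r g (f x)
  mon : ∀ x ∈ A, f (M.N x) = M'.N (f x)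
  inj : ∀ x ∈ A, f x = 0 → x = 0
  mem : ∀ x ∈ A, f x ∈ A'

lemma stab_ker (M : WDRep Ω v q V) (j : ℕ) : Stab M.r (LinearMap.ker (M.N ^ j)) :=
  fun g x hx => M.stable j g x hx

lemma stab_range (hq : (q : Ω) ≠ 0) (M : WDRep Ω v q V) (j : ℕ) :
    Stab M.r (LinearMap.range (M.N ^ j)) := by
  rintro g x ⟨y, rfl⟩
  have h1 := M.pow_twist g j y
  have h2 : ((q : Ω) ^ Multiplicative.toAdd (v g)) ^ j ≠ 0 := pow_ne_zero _ (zpow_ne_zero _ hq)
  refine ⟨(((q : Ω) ^ Multiplicative.toAdd (v g)) ^ j)⁻¹ • M.r g y, ?_⟩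
  rw [map_smul, h1, smul_smul, inv_mul_cancel₀ h2, one_smul]

/-- **The extension step.** -/
theorem extend_step {M : WDRep Ω v q V} {M' : WDRep Ω v q V'}
    (hs : Semis M.r) (hs' : Semis M'.r) {A B : Submodule Ω V} {A' B' : Submodule Ω V'}
    (hA : Stab M.r A) (hB : Stab M.r B) (hA' : Stab M'.r A')
    (hBA : B ≤ A) (hBA' : B' ≤ A') (hN : ∀ x ∈ A, M.N x ∈ B)
    (hN' : ∀ y ∈ B', ∃ x ∈ A', M'.N x = y) {f : V →ₗ[Ω] V'} (hf : IsStepMap M M' B B' f)
    {D : Submodule Ω V} (hD : Stab M.r D) (hDK : D ≤ LinearMap.ker M.N ⊓ A)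
    (hDB : Disjoint B D) (hDs : LinearMap.ker M.N ⊓ A ≤ (LinearMap.ker M.N ⊓ B) ⊔ D)
    {D' : Submodule Ω V'} (hDK' : D' ≤ LinearMap.ker M'.N ⊓ A')
    (hDB' : Disjoint B' D') {φ : V →ₗ[Ω] V'} (hφ1 : ∀ x ∈ D, φ x ∈ D')
    (hφ2 : ∀ x ∈ D, φ x = 0 → x = 0) (hφ3 : ∀ g, ∀ x ∈ D, φ (M.r g x) = M'.r g (φ x)) :
    ∃ f' : V →ₗ[Ω] V', IsStepMap M M' A A' f' := by
  have hK : Stab M.r (LinearMap.ker M.N ⊓ A) := by
    have h1 := stab_ker M 1
    rw [pow_one] at h1
    exact h1.inf hA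
  have hK' : Stab M'.r (LinearMap.ker M'.N ⊓ A') := by
    have h1 := stab_ker M' 1
    rw [pow_one] at h1
    exact h1.inf hA'
  have hbot : Stab M.r ⊥ := by
    intro g x hx
    rw [Submodule.mem_bot] at hx ⊢
    rw [hx, map_zero]
  have hbot' : Stab M'.r ⊥ := by
    intro g x hx
    rw [Submodule.mem_bot] at hx ⊢
    rw [hx, map_zero]
  obtain ⟨u, hu1, hu2, -, hu4⟩ := exists_proj hs (hB.sup hK) hbot disjoint_bot_right
  obtain ⟨w, hw1, hw2, hw3, hw4⟩ := exists_proj hs hB hD hDB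
  obtain ⟨κ, hκ1, hκ2, -, hκ4⟩ := exists_proj hs' hK' hbot' disjoint_bot_right
  -- the section `s`
  let E : Submodule Ω V' := A' ⊓ LinearMap.ker κ
  have hE : Stab M'.r E := by
    intro g x hx
    refine ⟨hA' g x hx.1, ?_⟩
    have h1 : κ x = 0 := hx.2
    show κ (M'.r g x) = 0
    rw [hκ4, h1, map_zero]
  have hinj : LinearMap.ker (M'.N ∘ₗ E.subtype) = ⊥ := by
    rw [LinearMap.ker_eq_bot']
    rintro ⟨x, hx1, hx2⟩ h0
    have h1 : M'.N x = 0 := h0
    have h2 : κ x = x := hκ2 x ⟨h1, hx1⟩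
    have h3 : κ x = 0 := hx2
    apply Subtype.ext
    show x = 0
    rw [← h2, h3]
  obtain ⟨σ, hσ⟩ := (M'.N ∘ₗ E.subtype).exists_leftInverse_of_injective hinj
  let s : V' →ₗ[Ω] V' := E.subtype ∘ₗ σ
  have hs1 : ∀ e ∈ E, s (M'.N e) = e := fun e he =>
    congrArg Subtype.val (LinearMap.congr_fun hσ ⟨e, he⟩)
  have hsE : ∀ y ∈ B', ∃ e ∈ E, M'.N e = y := by
    intro y hy
    obtain ⟨x, hx, rfl⟩ := hN' y hy
    have h1 := hκ1 x
    have h2 : κ (κ x) = κ x := hκ2 _ h1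
    have h3 : M'.N (κ x) = 0 := h1.1
    refine ⟨x - κ x, ⟨A'.sub_mem hx h1.2, ?_⟩, ?_⟩
    · show κ (x - κ x) = 0
      rw [map_sub, h2, sub_self]
    · rw [map_sub, h3, sub_zero]
  have hs2 : ∀ y ∈ B', M'.N (s y) = y := by
    intro y hy
    obtain ⟨e, he, rfl⟩ := hsE y hy
    rw [hs1 e he]
  have hs3 : ∀ y ∈ B', s y ∈ A' := by
    intro y hy
    obtain ⟨e, he, rfl⟩ := hsE y hy
    rw [hs1 e he]
    exact he.1
  have hs4 : ∀ g, ∀ y ∈ B', s (((q : Ω) ^ Multiplicative.toAdd (v g)) • M'.r g y) =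
      M'.r g (s y) := by
    intro g y hy
    obtain ⟨e, he, rfl⟩ := hsE y hy
    rw [← M'.twist, hs1 _ (hE g e he), hs1 e he]
  -- the decomposition of `A`
  have hdec : ∀ x ∈ A, w (u x) ∈ B ∧ (u x - w (u x)) ∈ D ∧ x - u x ∈ A := by
    intro x hx
    refine ⟨hw1 _, ?_, ?_⟩
    · obtain ⟨b, hb, c, hc, hbc⟩ := Submodule.mem_sup.1 (hu1 x)
      obtain ⟨b', hb', d, hd, hbd⟩ := Submodule.mem_sup.1 (hDs hc)
      have h1 : u x = (b + b') + d := by rw [← hbc, ← hbd, add_assoc]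
      have h2 : w (u x) = b + b' := by
        rw [h1, map_add, hw2 _ (B.add_mem hb hb'.2), hw3 d hd, add_zero]
      rw [h2, h1, add_sub_cancel_left]
      exact hd
    · have h1 : B ⊔ (LinearMap.ker M.N ⊓ A) ≤ A := sup_le hBA inf_le_right
      exact A.sub_mem hx (h1 (hu1 x))
  let f' : V →ₗ[Ω] V' := f ∘ₗ (w ∘ₗ u) + φ ∘ₗ (u - w ∘ₗ u) + s ∘ₗ f ∘ₗ M.N ∘ₗ (1 - u)
  have hf' : ∀ x, f' x = f (w (u x)) + φ (u x - w (u x)) + s (f (M.N (x - u x))) := fun x => rfl
  refine ⟨f', ?_, ?_, ?_, ?_⟩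
  · intro g x hx
    obtain ⟨h1, h2, h3⟩ := hdec x hx
    have h4 : f (M.N (x - u x)) ∈ B' := hf.mem _ (hN _ h3)
    rw [hf', hf', hu4, hw4, ← map_sub (M.r g), ← map_sub (M.r g), hf.equi g _ h1,
      hφ3 g _ h2, M.twist, map_smul, hf.equi g _ (hN _ h3), hs4 g _ h4, map_add, map_add]
  · intro x hx
    obtain ⟨h1, h2, h3⟩ := hdec x hx
    have h4 : ∀ b ∈ B, f' b = f b := by
      intro b hb
      have h5 : u b = b := hu2 b (Submodule.mem_sup_left hb)
      rw [hf', h5, hw2 b hb, sub_self, map_zero, map_zero, map_zero, map_zero, add_zero, add_zero]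
    have h5 : M.N (u x - w (u x)) = 0 := (hDK h2).1
    have h6 : M'.N (φ (u x - w (u x))) = 0 := (hDK' (hφ1 _ h2)).1
    rw [h4 _ (hN x hx), hf', map_add, map_add, ← hf.mon _ h1, h6, hs2 _ (hf.mem _ (hN _ h3)),
      add_zero, ← map_add f, ← map_add M.N]
    congr 1
    rw [map_add, map_sub]
    rw [map_sub] at h5
    rw [← sub_eq_zero.1 h5]
    abel
  · intro x hx h0
    obtain ⟨h1, h2, h3⟩ := hdec x hx
    have h4 : ∀ b ∈ B, f' b = f b := by
      intro b hb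
      have h5 : u b = b := hu2 b (Submodule.mem_sup_left hb)
      rw [hf', h5, hw2 b hb, sub_self, map_zero, map_zero, map_zero, map_zero, add_zero, add_zero]
    have h5 : M.N (u x - w (u x)) = 0 := (hDK h2).1
    have h6 : M'.N (φ (u x - w (u x))) = 0 := (hDK' (hφ1 _ h2)).1
    have h7 : M'.N (f' x) = f (M.N x) := by
      rw [hf', map_add, map_add, ← hf.mon _ h1, h6, hs2 _ (hf.mem _ (hN _ h3)),
        add_zero, ← map_add f, ← map_add M.N]
      congr 1
      rw [map_add, map_sub]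
      rw [map_sub] at h5
      rw [← sub_eq_zero.1 h5]
      abel
    have h8 : M.N x = 0 := by
      apply hf.inj _ (hN x hx)
      rw [← h7, h0, map_zero]
    have h9 : u x = x := hu2 x (Submodule.mem_sup_right ⟨h8, hx⟩)
    rw [hf', h9, sub_self, map_zero, map_zero, map_zero, add_zero] at h0
    rw [h9] at h1 h2 h6
    -- `f (w x) ∈ B'` and `φ (x - w x) ∈ D'`
    have h10 : f (w x) ∈ B' ⊓ D' := by
      refine ⟨hf.mem _ h1, ?_⟩
      rw [eq_neg_of_add_eq_zero_left h0]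
      exact D'.neg_mem (hφ1 _ h2)
    rw [hDB'.eq_bot, Submodule.mem_bot] at h10
    rw [h10, zero_add] at h0
    have h11 : w x = 0 := hf.inj _ h1 h10
    have h12 : x - w x = 0 := hφ2 _ h2 h0
    rw [h11, sub_zero] at h12
    exact h12
  · intro x hx
    obtain ⟨h1, h2, h3⟩ := hdec x hx
    rw [hf']
    exact A'.add_mem (A'.add_mem (hBA' (hf.mem _ h1)) (hDK' (hφ1 _ h2)).2)
      (hs3 _ (hf.mem _ (hN _ h3)))

end ext

end Run7.h514.WD
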