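import Pool.Agent.Run7.h514.WD.Defs
import Mathlib.GroupTheory.Archimedean

/-!
# Subgroups of the Weil group
-/

set_option autoImplicit false
set_option linter.unusedSectionVars false

namespace Run7.h514.WD

open Polynomial Module

section

variable {W : Type} [Group W] [TopologicalSpace W] {v : W →* Multiplicative ℤ}

lemma IsWeilGroup.finite_quotient (hW : IsWeilGroup W v) {J : Subgroup W}
    (hJ : IsOpen (J : Set W)) : Finite (v.ker ⧸ J.subgroupOf v.ker) := by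
  have := hW.top
  have : CompactSpace v.ker := isCompact_iff_compactSpace.1 hW.isCompact_inertia
  exact Subgroup.quotient_finite_of_isOpen _ (hJ.preimage continuous_subtype_val)

/-- The subgroup generated by `g` and a small normal open subgroup of the inertia group. -/
lemma sup_data (hW : IsWeilGroup W v) {g : W} (hg : 0 < Multiplicative.toAdd (v g))
    {J : Subgroup W} [J.Normal] (hJo : IsOpen (J : Set W)) (hJ : J ≤ v.ker) :
    IsOpen ((Subgroup.zpowers g ⊔ J : Subgroup W) : Set W) ∧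
      (Subgroup.zpowers g ⊔ J).FiniteIndex ∧ IsFrobenius v (Subgroup.zpowers g ⊔ J) g ∧
      ∀ h ∈ Subgroup.zpowers g ⊔ J, v h = 1 → h ∈ J := by
  have := hW.top
  obtain ⟨H, hH⟩ : ∃ H, H = Subgroup.zpowers g ⊔ J := ⟨_, rfl⟩
  have hmem : ∀ h, h ∈ H ↔ ∃ k : ℤ, ∃ j ∈ J, g ^ k * j = h := by
    intro h
    rw [hH, Subgroup.mem_sup_of_normal_right]
    constructor
    · rintro ⟨y, hy, z, hz, rfl⟩
      obtain ⟨k, rfl⟩ := Subgroup.mem_zpowers_iff.1 hy
      exact ⟨k, z, hz, rfl⟩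
    · rintro ⟨k, j, hj, rfl⟩
      exact ⟨g ^ k, Subgroup.mem_zpowers_iff.2 ⟨k, rfl⟩, j, hj, rfl⟩
  have hdeg : ∀ (k : ℤ), ∀ j ∈ J, Multiplicative.toAdd (v (g ^ k * j)) =
      k * Multiplicative.toAdd (v g) := by
    intro k j hj
    have h1 : v j = 1 := hJ hj
    rw [map_mul, h1, mul_one, map_zpow, toAdd_zpow, smul_eq_mul]
  have hgH : g ∈ H := (hmem g).2 ⟨1, 1, J.one_mem, by rw [zpow_one, mul_one]⟩
  have hJH : J ≤ H := fun j hj => (hmem j).2 ⟨0, j, hj, by rw [zpow_zero, one_mul]⟩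
  rw [← hH]
  refine ⟨Subgroup.isOpen_mono hJH hJo, ?_, ⟨hgH, hg, ?_⟩, ?_⟩
  · have hfin := hW.finite_quotient hJo
    obtain ⟨d, hd⟩ : ∃ d : ℕ, (d : ℤ) = Multiplicative.toAdd (v g) :=
      ⟨(Multiplicative.toAdd (v g)).toNat, Int.toNat_of_nonneg hg.le⟩
    obtain ⟨w0, hw0⟩ := hW.surj (Multiplicative.ofAdd 1)
    have hsurj : Function.Surjective
        (fun x : Fin d × (v.ker ⧸ J.subgroupOf v.ker) =>
          ((w0 ^ x.1.1 * ((x.2.out : v.ker) : W) : W) : W ⧸ H)) := by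
      intro c
      induction c using QuotientGroup.induction_on with
      | _ w =>
        obtain ⟨n, hn⟩ : ∃ n, n = Multiplicative.toAdd (v w) := ⟨_, rfl⟩
        have hd0 : (0 : ℤ) < d := by rw [hd]; exact hg
        have hk0 : 0 ≤ n % d := Int.emod_nonneg _ hd0.ne'
        have hk1 : n % d < d := Int.emod_lt_of_pos _ hd0
        obtain ⟨k, hk⟩ : ∃ k : ℕ, (k : ℤ) = n % d := ⟨(n % d).toNat, Int.toNat_of_nonneg hk0⟩
        have hi : (w0 ^ k)⁻¹ * (w * g ^ (-(n / d))) ∈ v.ker := by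
          rw [MonoidHom.mem_ker]
          apply Multiplicative.toAdd.injective
          rw [MonoidHom.map_mul, MonoidHom.map_mul, MonoidHom.map_inv, MonoidHom.map_pow,
            MonoidHom.map_zpow, hw0, toAdd_mul, toAdd_mul, toAdd_inv,
            toAdd_pow, toAdd_zpow, toAdd_ofAdd, toAdd_one, ← hn, ← hd, nsmul_eq_mul, mul_one,
            smul_eq_mul, hk]
          have := Int.emod_add_mul_ediv n d
          linarith [mul_comm (d : ℤ) (n / d)]
        refine ⟨(⟨k, by omega⟩, ((⟨_, hi⟩ : v.ker) : v.ker ⧸ J.subgroupOf v.ker)), ?_⟩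
        rw [QuotientGroup.eq]
        obtain ⟨c, hc⟩ : ∃ c : v.ker, c = (((⟨_, hi⟩ : v.ker) : v.ker ⧸ J.subgroupOf v.ker)).out :=
          ⟨_, rfl⟩
        have h1 : ((c : v.ker) : v.ker ⧸ J.subgroupOf v.ker) = ((⟨_, hi⟩ : v.ker)) := by
          rw [hc]
          exact Quotient.out_eq _
        have h2 := QuotientGroup.eq.1 h1
        rw [Subgroup.mem_subgroupOf] at h2
        have h3 : (c : W)⁻¹ * ((w0 ^ k)⁻¹ * (w * g ^ (-(n / d)))) ∈ J := h2
        show (w0 ^ k * ((((⟨_, hi⟩ : v.ker) : v.ker ⧸ J.subgroupOf v.ker).out : v.ker) : W))⁻¹ * w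
          ∈ H
        rw [← hc]
        have h4 : (w0 ^ k * (c : W))⁻¹ * w = ((c : W)⁻¹ * ((w0 ^ k)⁻¹ * (w * g ^ (-(n / d))))) *
            g ^ (n / (d : ℤ)) := by
          rw [mul_inv_rev]
          have h5 : g ^ (-(n / (d : ℤ))) * g ^ (n / (d : ℤ)) = 1 := by
            rw [← zpow_add, neg_add_cancel, zpow_zero]
          simp only [mul_assoc]
          rw [h5, mul_one]
        rw [h4]
        exact H.mul_mem (hJH h3) (H.zpow_mem hgH _)
    have : Finite (W ⧸ H) := Finite.of_surjective _ hsurj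
    exact Subgroup.finiteIndex_of_finite_quotient
  · intro h hh
    obtain ⟨k, j, hj, rfl⟩ := (hmem h).1 hh
    rw [hdeg k j hj]
    exact Dvd.intro_left k rfl
  · intro h hh h1
    obtain ⟨k, j, hj, rfl⟩ := (hmem h).1 hh
    have h2 := hdeg k j hj
    rw [h1, toAdd_one] at h2
    have hk : k = 0 := by
      rcases mul_eq_zero.1 h2.symm with h3 | h3
      · exact h3
      · exact absurd h3 hg.ne'
    rw [hk, zpow_zero, one_mul]
    exact hj

/-- A subgroup of finite index contains elements of positive degree. -/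
lemma exists_frobenius (hW : IsWeilGroup W v) {H : Subgroup W} (hH : H.FiniteIndex) :
    ∃ h, IsFrobenius v H h := by
  classical
  -- the degrees of the elements of `H`
  let D : AddSubgroup ℤ := (H.map v).toAddSubgroup'
  have hD : ∀ n, n ∈ D ↔ ∃ h ∈ H, Multiplicative.toAdd (v h) = n := by
    intro n
    constructor
    · rintro ⟨h, hh, h1⟩
      exact ⟨h, hh, by rw [h1]; rfl⟩
    · rintro ⟨h, hh, h1⟩
      exact ⟨h, hh, by rw [← h1]; rfl⟩
  obtain ⟨d, hd⟩ := Int.subgroup_cyclic D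
  obtain ⟨w0, hw0⟩ := hW.surj (Multiplicative.ofAdd 1)
  obtain ⟨m, hm0, -, hm⟩ := H.exists_pow_mem_of_index_ne_zero hH.index_ne_zero w0
  have hmD : (m : ℤ) ∈ D := (hD _).2 ⟨w0 ^ m, hm, by
    rw [map_pow, hw0, toAdd_pow, toAdd_ofAdd, nsmul_eq_mul, mul_one]⟩
  have hdvd : ∀ n, n ∈ D ↔ d ∣ n := by
    intro n
    rw [hd, AddSubgroup.mem_closure_singleton]
    constructor
    · rintro ⟨k, rfl⟩
      exact ⟨k, by rw [smul_eq_mul, mul_comm]⟩
    · rintro ⟨k, rfl⟩
      exact ⟨k, by rw [smul_eq_mul, mul_comm]⟩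
  have hd0 : d ≠ 0 := by
    rintro rfl
    have h1 := (hdvd _).1 hmD
    rw [zero_dvd_iff] at h1
    omega
  obtain ⟨h, hh, h1⟩ := (hD |d|).1 ((hdvd _).2 ((dvd_abs d d).2 dvd_rfl))
  refine ⟨h, hh, ?_, fun g hg => ?_⟩
  · rw [h1]
    exact abs_pos.2 hd0
  · rw [h1, abs_dvd]
    exact (hdvd _).1 ((hD _).2 ⟨g, hg, rfl⟩)

end

end Run7.h514.WD
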