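import Pool.Agent.Run7.h514.WD.Ext

/-!
# Semisimple Weil-Deligne representations are determined by traces
-/

set_option autoImplicit false
set_option linter.unusedSectionVars false

namespace Run7.h514.WD

open Module

section

variable {W : Type} [Group W] [TopologicalSpace W] {Ω : Type} [Field Ω] [CharZero Ω]
  {v : W →* Multiplicative ℤ} {q : ℕ} {V V' : Type} [AddCommGroup V] [Module Ω V]
  [AddCommGroup V'] [Module Ω V'] [FiniteDimensional Ω V] [FiniteDimensional Ω V']

lemma trace_congr {U U' : Type} [AddCommGroup U] [Module Ω U] [AddCommGroup U'] [Module Ω U']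
    (e : U ≃ₗ[Ω] U') {A : Module.End Ω U} {B : Module.End Ω U'} (h : ∀ x, e (A x) = B (e x)) :
    LinearMap.trace Ω U A = LinearMap.trace Ω U' B := by
  have h1 : B = e.conj A := by
    apply LinearMap.ext
    intro y
    rw [LinearEquiv.conj_apply_apply, h, LinearEquiv.apply_symm_apply]
  rw [h1, LinearMap.trace_conj']

/-- the trace of `g` on a stable subspace -/
noncomputable def st (M : WDRep Ω v q V) {S : Submodule Ω V} (hS : Stab M.r S) (g : W) : Ω :=
  LinearMap.trace Ω S (res M.r hS g)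

lemma st_eq (M : WDRep Ω v q V) {S : Submodule Ω V} (hS : Stab M.r S) (g : W)
    {π : Module.End Ω V} (h1 : ∀ x, π x ∈ S) (h2 : ∀ x ∈ S, π x = x) :
    st M hS g = LinearMap.trace Ω V (M.r g * π) :=
  (trace_proj (hS g) h1 h2).symm

/-- The traces on a nested pair. -/
lemma exists_diff {M : WDRep Ω v q V} (hs : Semis M.r) {K K₁ : Submodule Ω V} (hK : Stab M.r K)
    (hK₁ : Stab M.r K₁) (hle : K₁ ≤ K) : ∃ (D : Submodule Ω V) (hD : Stab M.r D), D ≤ K ∧
      Disjoint K₁ D ∧ K ≤ K₁ ⊔ D ∧ (∀ g, st M hD g = st M hK g - st M hK₁ g) := by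
  have hbot : Stab M.r ⊥ := by
    intro g x hx
    rw [Submodule.mem_bot] at hx ⊢
    rw [hx, map_zero]
  obtain ⟨β, hβ1, hβ2, -, hβ4⟩ := exists_proj hs hK₁ hbot disjoint_bot_right
  obtain ⟨κ, hκ1, hκ2, -, hκ4⟩ := exists_proj hs hK hbot disjoint_bot_right
  have hD : Stab M.r (K ⊓ LinearMap.ker β) := by
    intro g x hx
    refine ⟨hK g x hx.1, ?_⟩
    have h1 : β x = 0 := hx.2
    show β (M.r g x) = 0
    rw [hβ4, h1, map_zero]
  refine ⟨K ⊓ LinearMap.ker β, hD, inf_le_left, ?_, ?_, fun g => ?_⟩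
  · rw [disjoint_iff, eq_bot_iff]
    rintro x ⟨hx, -, hx'⟩
    have h1 : β x = 0 := hx'
    rw [hβ2 x hx] at h1
    exact h1
  · intro x hx
    rw [show x = β x + (x - β x) by abel]
    refine Submodule.add_mem_sup (hβ1 x) ⟨K.sub_mem hx (hle (hβ1 x)), ?_⟩
    show β (x - β x) = 0
    rw [map_sub, hβ2 _ (hβ1 x), sub_self]
  · rw [st_eq M hD g (π := κ - β * κ), st_eq M hK g hκ1 hκ2, st_eq M hK₁ g (π := β * κ),
      mul_sub, map_sub]
    · intro x
      exact hβ1 _
    · intro x hx
      rw [Module.End.mul_apply, hκ2 x (hle hx), hβ2 x hx]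
    · intro x
      refine ⟨K.sub_mem (hκ1 x) (hle (hβ1 _)), ?_⟩
      show β (κ x - β (κ x)) = 0
      rw [map_sub, hβ2 _ (hβ1 _), sub_self]
    · intro x hx
      have h1 : β x = 0 := hx.2
      rw [LinearMap.sub_apply, Module.End.mul_apply, hκ2 x hx.1, h1, sub_zero]

lemma stab_K (hq : (q : Ω) ≠ 0) (M : WDRep Ω v q V) (j : ℕ) :
    Stab M.r (LinearMap.ker M.N ⊓ LinearMap.range (M.N ^ j)) := by
  have h1 := stab_ker M 1
  rw [pow_one] at h1
  exact h1.inf (stab_range hq M j)

lemma ker_le_succ (M : WDRep Ω v q V) (j : ℕ) :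
    LinearMap.ker (M.N ^ j) ≤ LinearMap.ker (M.N ^ (j + 1)) := by
  intro x hx
  rw [LinearMap.mem_ker] at hx ⊢
  rw [pow_succ', Module.End.mul_apply, hx, map_zero]

/-- The traces on the kernel of `N` in the image of `N ^ j`. -/
lemma st_K (hq : (q : Ω) ≠ 0) {M : WDRep Ω v q V} (hs : Semis M.r) (j : ℕ) (g : W) :
    ((q : Ω) ^ Multiplicative.toAdd (v g)) ^ j * st M (stab_K hq M j) g =
      st M (stab_ker M (j + 1)) g - st M (stab_ker M j) g := by
  obtain ⟨E, hE, hE1, hE2, hE3, hE4⟩ := exists_diff hs (stab_ker M (j + 1)) (stab_ker M j)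
    (ker_le_succ M j)
  rw [← hE4]
  have hmem : ∀ x : E, (M.N ^ j) (x : V) ∈ LinearMap.ker M.N ⊓ LinearMap.range (M.N ^ j) := by
    intro x
    refine ⟨?_, ⟨x, rfl⟩⟩
    show M.N ((M.N ^ j) (x : V)) = 0
    rw [← Module.End.mul_apply, ← pow_succ']
    exact hE1 x.2
  let θ : E →ₗ[Ω] (LinearMap.ker M.N ⊓ LinearMap.range (M.N ^ j) : Submodule Ω V) :=
    ((M.N ^ j) ∘ₗ E.subtype).codRestrict _ hmem
  have hθ : Function.Bijective θ := by
    constructor
    · rw [← LinearMap.ker_eq_bot, LinearMap.ker_eq_bot']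
      intro x hx
      have h1 : (M.N ^ j) (x : V) = 0 := congrArg Subtype.val hx
      have h2 : (x : V) ∈ LinearMap.ker (M.N ^ j) ⊓ E := ⟨h1, x.2⟩
      rw [hE2.eq_bot] at h2
      exact Subtype.ext h2
    · rintro ⟨y, hy, z, rfl⟩
      have h1 : z ∈ LinearMap.ker (M.N ^ (j + 1)) := by
        rw [LinearMap.mem_ker, pow_succ', Module.End.mul_apply]
        exact hy
      obtain ⟨a, ha, e, he, hz⟩ := Submodule.mem_sup.1 (hE3 h1)
      refine ⟨⟨e, he⟩, ?_⟩
      apply Subtype.ext
      show (M.N ^ j) e = (M.N ^ j) z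
      have h2 : (M.N ^ j) a = 0 := ha
      rw [← hz, map_add, h2, zero_add]
  symm
  have h1 : st M hE g = LinearMap.trace Ω _ (((q : Ω) ^ Multiplicative.toAdd (v g)) ^ j •
      res M.r (stab_K hq M j) g) := by
    refine trace_congr (LinearEquiv.ofBijective θ hθ) (fun x => ?_)
    apply Subtype.ext
    show (M.N ^ j) (M.r g (x : V)) = ((q : Ω) ^ Multiplicative.toAdd (v g)) ^ j •
      M.r g ((M.N ^ j) (x : V))
    exact M.pow_twist g j x
  rw [h1, map_smul, smul_eq_mul]
  rfl

/-- **Semisimple Weil-Deligne representations are determined by the traces on the kernels of the powers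
of the monodromy operator.** -/
theorem iso_of_traces (hq : (q : Ω) ≠ 0) {M : WDRep Ω v q V} {M' : WDRep Ω v q V'}
    (hs : Semis M.r) (hs' : Semis M'.r)
    (ht : ∀ j g, LinearMap.trace Ω _ (M.onKer j g) = LinearMap.trace Ω _ (M'.onKer j g)) :
    ∃ e : V ≃ₗ[Ω] V', (∀ g x, e (M.r g x) = M'.r g (e x)) ∧ ∀ x, e (M.N x) = M'.N (e x) := by
  have ht1 : ∀ j g, st M (stab_ker M j) g = st M' (stab_ker M' j) g := fun j g => ht j g
  have ht2 : ∀ j g, st M (stab_K hq M j) g = st M' (stab_K hq M' j) g := by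
    intro j g
    have h1 := st_K hq hs j g
    have h2 := st_K hq hs' j g
    rw [ht1, ht1, ← h2] at h1
    exact mul_left_cancel₀ (pow_ne_zero _ (zpow_ne_zero _ hq)) h1
  have hrange : ∀ (j : ℕ), LinearMap.range (M.N ^ (j + 1)) ≤ LinearMap.range (M.N ^ j) := by
    rintro j x ⟨y, rfl⟩
    exact ⟨M.N y, by rw [← Module.End.mul_apply, ← pow_succ]⟩
  have hrange' : ∀ (j : ℕ), LinearMap.range (M'.N ^ (j + 1)) ≤ LinearMap.range (M'.N ^ j) := by
    rintro j x ⟨y, rfl⟩
    exact ⟨M'.N y, by rw [← Module.End.mul_apply, ← pow_succ]⟩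
  obtain ⟨m, hm⟩ : ∃ m, m = max (finrank Ω V) (finrank Ω V') := ⟨_, rfl⟩
  have hm1 : M.N ^ m = 0 := M.pow_finrank (by omega)
  have hm2 : M'.N ^ m = 0 := M'.pow_finrank (by omega)
  -- descending induction
  have key : ∀ i : ℕ, ∃ f : V →ₗ[Ω] V', IsStepMap M M' (LinearMap.range (M.N ^ (m - i)))
      (LinearMap.range (M'.N ^ (m - i))) f := by
    intro i
    induction i with
    | zero =>
      refine ⟨0, ?_, ?_, ?_, ?_⟩
      · intro g x hx
        simp
      · intro x hx
        simp
      · intro x hx _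
        obtain ⟨y, rfl⟩ := hx
        rw [Nat.sub_zero, hm1, LinearMap.zero_apply]
      · intro x hx
        exact Submodule.zero_mem _
    | succ i ih =>
      obtain ⟨f, hf⟩ := ih
      rcases Nat.lt_or_ge i m with hi | hi
      · obtain ⟨j, hj⟩ : ∃ j, j = m - (i + 1) := ⟨_, rfl⟩
        have hj1 : m - i = j + 1 := by omega
        rw [hj1] at hf
        rw [← hj]
        have hle : LinearMap.ker M.N ⊓ LinearMap.range (M.N ^ (j + 1)) ≤
            LinearMap.ker M.N ⊓ LinearMap.range (M.N ^ j) := inf_le_inf_left _ (hrange j)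
        have hle' : LinearMap.ker M'.N ⊓ LinearMap.range (M'.N ^ (j + 1)) ≤
            LinearMap.ker M'.N ⊓ LinearMap.range (M'.N ^ j) := inf_le_inf_left _ (hrange' j)
        obtain ⟨D, hD, hD1, hD2, hD3, hD4⟩ := exists_diff hs (stab_K hq M j)
          (stab_K hq M (j + 1)) hle
        obtain ⟨D', hD', hD1', hD2', hD3', hD4'⟩ := exists_diff hs' (stab_K hq M' j)
          (stab_K hq M' (j + 1)) hle'
        obtain ⟨e, he⟩ := bn (ρ := res M.r hD) (ρ' := res M'.r hD')
          (semis_restrict hs (fun _ _ => rfl)) (semis_restrict hs' (fun _ _ => rfl))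
          (fun g => by
            have h1 : st M hD g = st M' hD' g := by rw [hD4, hD4', ht2, ht2]
            exact h1)
        obtain ⟨φ, hφ⟩ := LinearMap.exists_extend (D'.subtype ∘ₗ e.toLinearMap)
        have hφ' : ∀ x : D, φ (x : V) = (e x : V') := fun x => LinearMap.congr_fun hφ x
        have hdisj : Disjoint (LinearMap.range (M.N ^ (j + 1))) D := by
          rw [disjoint_iff, eq_bot_iff]
          rintro x ⟨hx, hx'⟩
          have h1 : x ∈ (LinearMap.ker M.N ⊓ LinearMap.range (M.N ^ (j + 1))) ⊓ D :=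
            ⟨⟨(hD1 hx').1, hx⟩, hx'⟩
          rw [hD2.eq_bot] at h1
          exact h1
        have hdisj' : Disjoint (LinearMap.range (M'.N ^ (j + 1))) D' := by
          rw [disjoint_iff, eq_bot_iff]
          rintro x ⟨hx, hx'⟩
          have h1 : x ∈ (LinearMap.ker M'.N ⊓ LinearMap.range (M'.N ^ (j + 1))) ⊓ D' :=
            ⟨⟨(hD1' hx').1, hx⟩, hx'⟩
          rw [hD2'.eq_bot] at h1
          exact h1
        exact extend_step hs hs' (stab_range hq M j) (stab_range hq M (j + 1))
          (stab_range hq M' j) (hrange j) (hrange' j)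
          (fun x hx => by
            obtain ⟨y, rfl⟩ := hx
            exact ⟨y, by rw [pow_succ', Module.End.mul_apply]⟩)
          (fun y hy => by
            obtain ⟨z, rfl⟩ := hy
            exact ⟨(M'.N ^ j) z, ⟨z, rfl⟩, by rw [pow_succ', Module.End.mul_apply]⟩)
          hf hD hD1 hdisj hD3 hD1' hdisj'
          (φ := φ)
          (fun x hx => by
            rw [hφ' ⟨x, hx⟩]
            exact (e ⟨x, hx⟩).2)
          (fun x hx h0 => by
            rw [hφ' ⟨x, hx⟩] at h0
            have h1 : e ⟨x, hx⟩ = 0 := Subtype.ext h0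
            rw [LinearEquiv.map_eq_zero_iff] at h1
            exact congrArg Subtype.val h1)
          (fun g x hx => by
            rw [hφ' ⟨x, hx⟩]
            have h1 : M.r g x = ((res M.r hD g ⟨x, hx⟩ : D) : V) := rfl
            rw [h1, hφ', he]
            rfl)
      · refine ⟨f, ?_⟩
        rw [show m - (i + 1) = m - i by omega]
        exact hf
  obtain ⟨f, hf⟩ := key m
  rw [Nat.sub_self, pow_zero, pow_zero] at hf
  have htop : ∀ x : V, x ∈ LinearMap.range (1 : Module.End Ω V) := fun x => ⟨x, rfl⟩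
  have hinj : Function.Injective f := by
    rw [← LinearMap.ker_eq_bot, LinearMap.ker_eq_bot']
    intro x hx
    exact hf.inj x (htop x) hx
  have hdim : finrank Ω V = finrank Ω V' := by
    have h1 := ht m 1
    have h2 : ∀ {V : Type} [AddCommGroup V] [Module Ω V] [FiniteDimensional Ω V]
        (M : WDRep Ω v q V), M.N ^ m = 0 →
        LinearMap.trace Ω _ (M.onKer m 1) = (finrank Ω V : Ω) := by
      intro V _ _ _ M hM
      have h3 : LinearMap.ker (M.N ^ m) = ⊤ := by rw [hM, LinearMap.ker_zero]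
      rw [← LinearMap.trace_one Ω V]
      refine trace_congr (LinearEquiv.ofTop _ h3) (fun x => ?_)
      show M.r 1 (x : V) = x
      rw [map_one, Module.End.one_apply]
    rw [h2 M hm1, h2 M' hm2] at h1
    exact_mod_cast h1
  refine ⟨LinearEquiv.ofInjective f hinj |>.trans (LinearEquiv.ofTop _
    (LinearMap.range_eq_top.2 ((LinearMap.injective_iff_surjective_of_finrank_eq_finrank hdim).1
      hinj))), fun g x => ?_, fun x => ?_⟩
  · exact hf.equi g x (htop x)
  · exact hf.mon x (htop x)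

end

end Run7.h514.WD
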