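import Pool.Agent.Run7.h514.WD.Defs

/-!
# The kernel of the monodromy operator of a Steinberg twist
-/

set_option autoImplicit false
set_option linter.unusedSectionVars false

namespace Run7.h514.WD

open Polynomial Module TensorProduct

section

variable {W : Type} [Group W] [TopologicalSpace W] {F : Type} [Field F]
  {v : W →* Multiplicative ℤ} {q : ℕ} {V : Type} [AddCommGroup V] [Module F V]

/-- coordinates of the tensor product -/
noncomputable def coords (F V : Type) [Field F] [AddCommGroup V] [Module F V] (n : ℕ) :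
    Tens F V (Coord F n) ≃ₗ[F] (Fin (n + 1) → V) :=
  TensorProduct.piScalarRight F F V (Fin (n + 1))

/-- coordinates of the tensor product -/
noncomputable def coo (F V : Type) [Field F] [AddCommGroup V] [Module F V] (n : ℕ) :
    V ⊗[F] (Fin (n + 1) → F) ≃ₗ[F] (Fin (n + 1) → V) :=
  TensorProduct.piScalarRight F F V (Fin (n + 1))

lemma coo_tmul {n : ℕ} (x : V) (f : Fin (n + 1) → F) (i : Fin (n + 1)) :
    coo F V n (x ⊗ₜ f) i = f i • x := by
  unfold coo
  simp

lemma coo_N (N : Module.End F V) {n : ℕ} (T : (Fin (n + 1) → F) →ₗ[F] (Fin (n + 1) → F))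
    (hT : ∀ x i, T x i = if h : i.1 + 1 < n + 1 then ((i.1 + 1 : ℕ) : F) * x ⟨i.1 + 1, h⟩ else 0)
    (z : V ⊗[F] (Fin (n + 1) → F)) (i : Fin (n + 1)) :
    coo F V n (TensorProduct.map N 1 z + TensorProduct.map 1 T z) i = N (coo F V n z i) +
      if h : i.1 + 1 < n + 1 then ((i.1 + 1 : ℕ) : F) • coo F V n z ⟨i.1 + 1, h⟩ else 0 := by
  rw [map_add, Pi.add_apply]
  induction z using TensorProduct.induction_on with
  | zero => simp
  | tmul x f =>
    rw [TensorProduct.map_tmul, TensorProduct.map_tmul, coo_tmul, coo_tmul, coo_tmul,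
      Module.End.one_apply, Module.End.one_apply, map_smul, hT]
    by_cases h : i.1 + 1 < n + 1
    · rw [dif_pos h, dif_pos h, coo_tmul, smul_smul]
    · rw [dif_neg h, dif_neg h, zero_smul]
  | add a b ha hb =>
    simp only [map_add, Pi.add_apply] at ha hb ⊢
    rw [show ∀ s t u w : V, s + t + (u + w) = (s + u) + (t + w) by intros; abel, ha, hb]
    by_cases h : i.1 + 1 < n + 1
    · simp only [dif_pos h, smul_add]
      abel
    · simp only [dif_neg h]
      abel

lemma coo_r (A : Module.End F V) {n : ℕ} (T : (Fin (n + 1) → F) →ₗ[F] (Fin (n + 1) → F))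
    (c : Fin (n + 1) → F) (hT : ∀ x i, T x i = c i * x i)
    (z : V ⊗[F] (Fin (n + 1) → F)) (i : Fin (n + 1)) :
    coo F V n (TensorProduct.map A T z) i = c i • A (coo F V n z i) := by
  induction z using TensorProduct.induction_on with
  | zero => simp
  | tmul x f =>
    rw [TensorProduct.map_tmul, coo_tmul, coo_tmul, map_smul, smul_smul, hT]
  | add a b ha hb =>
    simp only [map_add, Pi.add_apply, smul_add]
    rw [ha, hb]

lemma coords_N (M : WDRep F v q V) (hW : IsWeilGroup W v) (hq : (q : F) ≠ 0) {n : ℕ}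
    (z : Tens F V (Coord F n)) (i : Fin (n + 1)) :
    coords F V n ((M.tensor (steinberg hW F q hq n)).N z) i = M.N (coords F V n z i) +
      if h : i.1 + 1 < n + 1 then ((i.1 + 1 : ℕ) : F) • coords F V n z ⟨i.1 + 1, h⟩ else 0 :=
  coo_N M.N (shift F n) (fun x i => shift_apply x i) z i

lemma coords_r (M : WDRep F v q V) (hW : IsWeilGroup W v) (hq : (q : F) ≠ 0) {n : ℕ} (g : W)
    (z : Tens F V (Coord F n)) (i : Fin (n + 1)) :
    coords F V n ((M.tensor (steinberg hW F q hq n)).r g z) i =
      ((q : F) ^ (i.1 * Multiplicative.toAdd (v g) : ℤ)) • M.r g (coords F V n z i) :=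
  coo_r (M.r g) (diag F q n _) _ (fun x i => diag_apply _ x i) z i

/-- The vectors in the kernel of `N ^ j` which are fixed by the inertia group of `H`. -/
def WDRep.fixKer (M : WDRep F v q V) (j : ℕ) (H : Subgroup W) : Submodule F V where
  carrier := {x | (M.N ^ j) x = 0 ∧ ∀ g ∈ H, v g = 1 → M.r g x = x}
  add_mem' := by
    rintro x y ⟨hx, hx'⟩ ⟨hy, hy'⟩
    refine ⟨by rw [map_add, hx, hy, add_zero], fun g hg h1 => ?_⟩
    rw [map_add, hx' g hg h1, hy' g hg h1]
  zero_mem' := ⟨map_zero _, fun g _ _ => map_zero _⟩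
  smul_mem' := by
    rintro c x ⟨hx, hx'⟩
    refine ⟨by rw [map_smul, hx, smul_zero], fun g hg h1 => ?_⟩
    rw [map_smul, hx' g hg h1]

lemma WDRep.N_r (M : WDRep F v q V) {g : W} (hg : v g = 1) (x : V) :
    M.N (M.r g x) = M.r g (M.N x) := by
  rw [M.twist, hg, toAdd_one, zpow_zero, one_smul]

variable [CharZero F]

lemma coords_of_ker (M : WDRep F v q V) (hW : IsWeilGroup W v) (hq : (q : F) ≠ 0) {n : ℕ}
    {z : Tens F V (Coord F n)} (hz : (M.tensor (steinberg hW F q hq n)).N z = 0) :
    ∀ (i : ℕ) (hi : i < n + 1), coords F V n z ⟨i, hi⟩ =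
      ((-1) ^ i * (i.factorial : F)⁻¹) • (M.N ^ i) (coords F V n z 0) := by
  intro i
  induction i with
  | zero =>
    intro hi
    simp
  | succ i ih =>
    intro hi
    have h1 := coords_N M hW hq z ⟨i, by omega⟩
    rw [hz, map_zero, Pi.zero_apply, dif_pos hi, ih (by omega), map_smul,
      ← Module.End.mul_apply, ← pow_succ'] at h1
    have h2 : ((i + 1 : ℕ) : F) ≠ 0 := Nat.cast_ne_zero.2 (Nat.succ_ne_zero i)
    have h3 : ((i + 1 : ℕ) : F) • coords F V n z ⟨i + 1, hi⟩ =
        -(((-1) ^ i * (i.factorial : F)⁻¹) • (M.N ^ (i + 1)) (coords F V n z 0)) := by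
      rw [eq_neg_iff_add_eq_zero, add_comm]
      exact h1.symm
    have h4 : coords F V n z ⟨i + 1, hi⟩ = ((i + 1 : ℕ) : F)⁻¹ • (((i + 1 : ℕ) : F) •
        coords F V n z ⟨i + 1, hi⟩) := by
      rw [smul_smul, inv_mul_cancel₀ h2, one_smul]
    rw [h4, h3, smul_neg, smul_smul, ← neg_smul]
    congr 1
    rw [Nat.factorial_succ, Nat.cast_mul, mul_inv, pow_succ]
    ring

/-- **The invariants of a Steinberg twist.** The map `x ↦ x_0` is an isomorphism from the invariants of
`V ⊗ Sym^n` to the invariants in the kernel of `N ^ (n + 1)`. -/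
theorem exists_equiv (M : WDRep F v q V) (hW : IsWeilGroup W v) (hq : (q : F) ≠ 0) (n : ℕ)
    (H : Subgroup W) : ∃ φ : (M.tensor (steinberg hW F q hq n)).inv H ≃ₗ[F] M.fixKer (n + 1) H,
      ∀ z, (φ z : V) = coords F V n (z : Tens F V (Coord F n)) 0 := by
  classical
  have hmem : ∀ z : (M.tensor (steinberg hW F q hq n)).inv H,
      coords F V n (z : Tens F V (Coord F n)) 0 ∈ M.fixKer (n + 1) H := by
    rintro ⟨z, hz, hz'⟩
    refine ⟨?_, fun g hg h1 => ?_⟩
    · have h1 := coords_N M hW hq z ⟨n, by omega⟩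
      rw [hz, map_zero, Pi.zero_apply, dif_neg (by show ¬ (n + 1 < n + 1); omega), add_zero,
        coords_of_ker M hW hq hz n (by omega), map_smul, ← Module.End.mul_apply, ← pow_succ'] at h1
      rcases smul_eq_zero.1 h1.symm with h2 | h2
      · exfalso
        rcases mul_eq_zero.1 h2 with h3 | h3
        · exact pow_ne_zero n (neg_ne_zero.2 one_ne_zero) h3
        · exact inv_ne_zero (Nat.cast_ne_zero.2 (Nat.factorial_ne_zero n)) h3
      · exact h2
    · have h2 := coords_r M hW hq g z 0
      rw [hz' g hg h1] at h2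
      simp only [Fin.val_zero, Nat.cast_zero, zero_mul, zpow_zero, one_smul] at h2
      exact h2.symm
  let f : (M.tensor (steinberg hW F q hq n)).inv H →ₗ[F] M.fixKer (n + 1) H :=
    ((LinearMap.proj 0 ∘ₗ (coords F V n).toLinearMap) ∘ₗ Submodule.subtype _).codRestrict _ hmem
  have hf : ∀ z, (f z : V) = coords F V n (z : Tens F V (Coord F n)) 0 := fun _ => rfl
  have hbij : Function.Bijective f := by
    constructor
    · rw [← LinearMap.ker_eq_bot, LinearMap.ker_eq_bot']
      rintro ⟨z, hz⟩ h0
      have h1 : coords F V n z 0 = 0 := by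
        rw [← hf ⟨z, hz⟩, h0]
        rfl
      apply Subtype.ext
      show z = 0
      apply (coords F V n).injective
      funext i
      rw [map_zero, Pi.zero_apply]
      have h2 := coords_of_ker M hW hq hz.1 i.1 i.2
      rw [h1, map_zero, smul_zero] at h2
      exact h2
    · rintro ⟨y, hy, hy'⟩
      let z : Tens F V (Coord F n) := (coords F V n).symm fun i =>
        ((-1) ^ i.1 * (i.1.factorial : F)⁻¹) • (M.N ^ i.1) y
      have hzc : ∀ i, coords F V n z i = ((-1) ^ i.1 * (i.1.factorial : F)⁻¹) • (M.N ^ i.1) y := by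
        intro i
        show coords F V n ((coords F V n).symm _) i = _
        rw [LinearEquiv.apply_symm_apply]
      refine ⟨⟨z, ?_, ?_⟩, ?_⟩
      · apply (coords F V n).injective
        funext i
        rw [map_zero, Pi.zero_apply, coords_N, hzc, map_smul, ← Module.End.mul_apply, ← pow_succ']
        by_cases h : i.1 + 1 < n + 1
        · rw [dif_pos h, hzc, smul_smul]
          show _ + (((i.1 + 1 : ℕ) : F) * ((-1) ^ (i.1 + 1) * ((i.1 + 1).factorial : F)⁻¹)) •
            (M.N ^ (i.1 + 1)) y = 0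
          rw [← add_smul]
          convert zero_smul F _
          have h2 : ((i.1 + 1 : ℕ) : F) ≠ 0 := Nat.cast_ne_zero.2 (Nat.succ_ne_zero _)
          rw [Nat.factorial_succ, Nat.cast_mul, mul_inv, pow_succ]
          field_simp
          ring
        · rw [dif_neg h, show i.1 + 1 = n + 1 by have := i.2; omega, hy, smul_zero, add_zero]
      · intro g hg h1
        apply (coords F V n).injective
        funext i
        have h4 : ∀ k : ℕ, M.r g ((M.N ^ k) y) = (M.N ^ k) y := by
          intro k
          have h5 := M.pow_twist g k y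
          rw [h1, toAdd_one, zpow_zero, one_pow, one_smul, hy' g hg h1] at h5
          exact h5.symm
        rw [coords_r, hzc, h1, toAdd_one, mul_zero, zpow_zero, one_smul, map_smul, h4]
      · apply Subtype.ext
        show coords F V n z 0 = y
        rw [hzc]
        simp
  exact ⟨LinearEquiv.ofBijective f hbij, fun z => hf z⟩

end

end Run7.h514.WD
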