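import Pool.Agent.Run7.h514.WD.Char
import Pool.Agent.Run7.h514.WD.Twist
import Pool.Agent.Run7.h514.WD.Grp

/-!
# Euler factors of the twists and independence of `ℓ`
-/

set_option autoImplicit false
set_option linter.unusedSectionVars false

namespace Run7.h514.WD

open Polynomial Module TensorProduct

section one

variable {W : Type} [Group W] [TopologicalSpace W] {F : Type} [Field F]
  {v : W →* Multiplicative ℤ} {q : ℕ} {V : Type} [AddCommGroup V] [Module F V]

/-- The representation on the kernel of `N ^ j`. -/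
noncomputable def WDRep.kerRep (M : WDRep F v q V) (j : ℕ) :
    W →* Module.End F (LinearMap.ker (M.N ^ j)) where
  toFun := M.onKer j
  map_one' := by
    apply LinearMap.ext
    intro x
    apply Subtype.ext
    show M.r 1 (x : V) = x
    rw [map_one, Module.End.one_apply]
  map_mul' g h := by
    apply LinearMap.ext
    intro x
    apply Subtype.ext
    show M.r (g * h) (x : V) = M.r g (M.r h x)
    rw [map_mul, Module.End.mul_apply]

variable [FiniteDimensional F V]

lemma WDRep.charpoly_onKer (M : WDRep F v q V) {j : ℕ} (hj : M.N ^ j = 0) (g : W) :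
    (M.onKer j g).charpoly = (M.r g).charpoly := by
  have h1 : LinearMap.ker (M.N ^ j) = ⊤ := by rw [hj, LinearMap.ker_zero]
  exact charpoly_congr (LinearEquiv.ofTop _ h1) (fun x => rfl)

lemma WDRep.pow_finrank (M : WDRep F v q V) {j : ℕ} (hj : finrank F V ≤ j) : M.N ^ j = 0 := by
  have h1 : M.N ^ finrank F V = 0 := by
    obtain ⟨k, hk⟩ := M.nilpotent
    have h2 : M.N.charpoly = X ^ finrank F V := M.nilpotent.charpoly_eq_X_pow_finrank
    have h3 := LinearMap.aeval_self_charpoly M.N
    rw [h2] at h3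
    simpa using h3
  rw [show j = finrank F V + (j - finrank F V) by omega, pow_add, h1, zero_mul]

/-- The kernel of `r`, in the inertia group. -/
def WDRep.small (M : WDRep F v q V) : Subgroup W := v.ker ⊓ MonoidHom.ker M.r

instance (M : WDRep F v q V) : M.small.Normal := by
  unfold WDRep.small
  infer_instance

lemma WDRep.mem_small (M : WDRep F v q V) {g : W} : g ∈ M.small ↔ v g = 1 ∧ M.r g = 1 := by
  unfold WDRep.small
  rw [Subgroup.mem_inf, MonoidHom.mem_ker, MonoidHom.mem_ker]

lemma WDRep.small_open (hW : IsWeilGroup W v) (M : WDRep F v q V) :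
    IsOpen (M.small : Set W) := by
  have := hW.top
  obtain ⟨U, hU, hU'⟩ := M.smooth
  exact Subgroup.isOpen_mono (fun g hg => M.mem_small.2 (hU' g hg)) hU

variable [CharZero F]

lemma WDRep.charpoly_inv (M : WDRep F v q V) (hW : IsWeilGroup W v) (hq : (q : F) ≠ 0) {n : ℕ}
    {H : Subgroup W} (hH : ∀ h ∈ H, v h = 1 → M.r h = 1) {g : W}
    {A : Module.End F ((M.tensor (steinberg hW F q hq n)).inv H)}
    (hA : ∀ x, (A x : Tens F V (Coord F n)) = (M.tensor (steinberg hW F q hq n)).r g x) :
    A.charpoly = (M.onKer (n + 1) g).charpoly := by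
  obtain ⟨φ, hφ⟩ := exists_equiv M hW hq n H
  have h1 : M.fixKer (n + 1) H = LinearMap.ker (M.N ^ (n + 1)) := by
    ext x
    constructor
    · rintro ⟨hx, -⟩
      exact hx
    · intro hx
      exact ⟨hx, fun g hg h1 => by rw [hH g hg h1, Module.End.one_apply]⟩
  refine charpoly_congr (φ.trans (LinearEquiv.ofEq _ _ h1)) (fun x => ?_)
  apply Subtype.ext
  show (φ (A x) : V) = M.r g (φ x : V)
  rw [hφ, hφ, hA, coords_r]
  simp

end one

section family

variable {W : Type} [Group W] [TopologicalSpace W] {v : W →* Multiplicative ℤ} {q : ℕ}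
  {Λ : Type} {F : Λ → Type} [∀ l, Field (F l)] [∀ l, CharZero (F l)]
  {V : Λ → Type} [∀ l, AddCommGroup (V l)] [∀ l, Module (F l) (V l)]
  [∀ l, FiniteDimensional (F l) (V l)]

/-- pairwise to global -/
lemma glue (l0 : Λ) (c : ∀ l, (F l)[X])
    (h : ∀ l, ∃ P : ℚ[X], c l0 = P.map (algebraMap ℚ (F l0)) ∧ c l = P.map (algebraMap ℚ (F l))) :
    ∃ P : ℚ[X], ∀ l, c l = P.map (algebraMap ℚ (F l)) := by
  choose P h1 h2 using h
  refine ⟨P l0, fun l => ?_⟩
  have h3 : P l = P l0 := by
    apply Polynomial.map_injective (algebraMap ℚ (F l0)) (algebraMap ℚ (F l0)).injective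
    rw [← h1 l, ← h1 l0]
  rw [h2 l, h3]

theorem positive (hW : IsWeilGroup W v) (hq : ∀ l, (q : F l) ≠ 0)
    (M : ∀ l, WDRep (F l) v q (V l))
    (h : ∀ n, IndependentFactors fun l => (M l).tensor (steinberg hW (F l) q (hq l) n)) (n : ℕ)
    (g : W) (hg : 0 < Multiplicative.toAdd (v g)) :
    ∃ P : ℚ[X], ∀ l, ((M l).onKer (n + 1) g).charpoly = P.map (algebraMap ℚ (F l)) := by
  have := hW.top
  by_cases hΛ : Nonempty Λ
  swap
  · exact ⟨0, fun l => absurd ⟨l⟩ hΛ⟩
  obtain ⟨l0⟩ := hΛ
  refine glue l0 (fun l => ((M l).onKer (n + 1) g).charpoly) fun l => ?_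
  obtain ⟨hHo, hHf, hfrob, hdeg⟩ := sup_data hW hg
    (J := (M l0).small ⊓ (M l).small) (((M l0).small_open hW).inter ((M l).small_open hW))
    (fun x hx => ((M l0).mem_small.1 hx.1).1)
  obtain ⟨P, hP⟩ := h n _ hHo hHf
  obtain ⟨f, hf⟩ : ∃ f : ℕ, f = (Multiplicative.toAdd (v g)).toNat := ⟨_, rfl⟩
  have hf0 : f ≠ 0 := by omega
  have key : ∀ l', (M l0).small ⊓ (M l).small ≤ (M l').small →
      ((M l').onKer (n + 1) g).charpoly =
        (contract f P).reverse.map (algebraMap ℚ (F l')) := by
    intro l' hl'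
    obtain ⟨A, hA, hPA⟩ := hP l' g hfrob
    have h1 := (M l').charpoly_inv hW (hq l')
      (fun x hx h1 => ((M l').mem_small.1 (hl' (hdeg x hx h1))).2) hA
    have h2 : A.charpoly.coeff 0 ≠ 0 := by
      rw [h1]
      exact coeff_zero_ne (isUnit_rep ((M l').kerRep (n + 1)) g)
    rw [← h1]
    apply charpoly_of_reverse h2
    rw [← hf] at hPA
    rw [map_contract hf0, hPA, contract_expand _ hf0]
  exact ⟨_, key l0 inf_le_left, key l inf_le_right⟩

/-- The Euler factors of the twists determine the Weil-Deligne representations. -/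
theorem compatible_of_factors (hW : IsWeilGroup W v) (hq : ∀ l, (q : F l) ≠ 0)
    (M : ∀ l, WDRep (F l) v q (V l))
    (h : ∀ n, IndependentFactors fun l => (M l).tensor (steinberg hW (F l) q (hq l) n)) :
    Compatible M := by
  intro j g
  rcases j with _ | n
  · refine ⟨1, fun l => ?_⟩
    have h1 : LinearMap.ker ((M l).N ^ 0) = ⊥ := by
      rw [pow_zero]
      exact LinearMap.ker_id
    have h2 : finrank (F l) (LinearMap.ker ((M l).N ^ 0)) = 0 := by rw [h1, finrank_bot]
    rw [Polynomial.map_one]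
    have h3 := LinearMap.charpoly_natDegree ((M l).onKer 0 g)
    rw [h2] at h3
    exact Polynomial.eq_one_of_monic_natDegree_zero (LinearMap.charpoly_monic _) h3
  · exact extend hW.surj (fun l => (M l).kerRep (n + 1))
      (fun g hg => positive hW hq M h n g hg) g

/-- The characteristic polynomials on the whole space. -/
lemma Compatible.whole {M : ∀ l, WDRep (F l) v q (V l)} (h : Compatible M) (g : W) :
    ∃ P : ℚ[X], ∀ l, ((M l).r g).charpoly = P.map (algebraMap ℚ (F l)) := by
  by_cases hΛ : Nonempty Λ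
  swap
  · exact ⟨0, fun l => absurd ⟨l⟩ hΛ⟩
  obtain ⟨l0⟩ := hΛ
  refine glue l0 (fun l => ((M l).r g).charpoly) fun l => ?_
  obtain ⟨P, hP⟩ := h (max (finrank (F l0) (V l0)) (finrank (F l) (V l))) g
  refine ⟨P, ?_, ?_⟩
  · show ((M l0).r g).charpoly = _
    rw [← hP l0, (M l0).charpoly_onKer ((M l0).pow_finrank (le_max_left _ _))]
  · show ((M l).r g).charpoly = _
    rw [← hP l, (M l).charpoly_onKer ((M l).pow_finrank (le_max_right _ _))]

/-- The field over which the inertia group acts unipotently does not depend on `ℓ`. -/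
lemma Compatible.small_le (hW : IsWeilGroup W v) {M : ∀ l, WDRep (F l) v q (V l)}
    (h : Compatible M) (l l' : Λ) : (M l).small ≤ (M l').small := by
  have := hW.top
  intro g hg
  rw [WDRep.mem_small] at hg ⊢
  refine ⟨hg.1, ?_⟩
  obtain ⟨P, hP⟩ := h.whole g
  have h1 : P = (X - 1) ^ finrank (F l) (V l) := by
    apply Polynomial.map_injective (algebraMap ℚ (F l)) (algebraMap ℚ (F l)).injective
    rw [← hP l, hg.2, Polynomial.map_pow, Polynomial.map_sub, map_X, Polynomial.map_one]
    exact LinearMap.charpoly_one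
  have hfin := hW.finite_quotient ((M l').small_open hW)
  have hfi : ((M l').small.subgroupOf v.ker).FiniteIndex := Subgroup.finiteIndex_of_finite_quotient
  obtain ⟨m, hm0, -, hm⟩ := Subgroup.exists_pow_mem_of_index_ne_zero hfi.index_ne_zero
    (⟨g, hg.1⟩ : v.ker)
  rw [Subgroup.mem_subgroupOf] at hm
  have hm1 : g ^ m ∈ (M l').small := hm
  refine unip (n := finrank (F l) (V l)) ?_ hm0 ?_
  · rw [hP l', h1, Polynomial.map_pow, Polynomial.map_sub, map_X, Polynomial.map_one]
  · rw [← MonoidHom.map_pow]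
    exact ((M l').mem_small.1 hm1).2

end family

end Run7.h514.WD
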