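import Pool.Agent.Run7.h514.WD.Iso
import Mathlib.LinearAlgebra.Trace

/-!
# Frobenius-semisimplifications over a common field
-/

set_option autoImplicit false
set_option linter.unusedSectionVars false

namespace Run7.h514.WD

open Module TensorProduct

section one

variable {W : Type} [Group W] [TopologicalSpace W] {F : Type} [Field F] [CharZero F]
  {v : W →* Multiplicative ℤ} {q : ℕ} {V : Type} [AddCommGroup V] [Module F V]
  [FiniteDimensional F V] {Ω : Type} [Field Ω] [CharZero Ω] [Algebra F Ω]

/-- A projection onto the kernel of `f` which stays a projection after extension of scalars. -/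
lemma exists_projection (f : Module.End F V) : ∃ π s : Module.End F V, f * π = 0 ∧
    1 - π = s * f := by
  obtain ⟨π0, hπ0⟩ := (LinearMap.ker f).subtype.exists_leftInverse_of_injective
    (LinearMap.ker f).ker_subtype
  let π : Module.End F V := (LinearMap.ker f).subtype ∘ₗ π0
  have hπ1 : ∀ x, f (π x) = 0 := fun x => (π0 x).2
  have hπ2 : ∀ x ∈ LinearMap.ker f, π x = x := fun x hx =>
    congrArg Subtype.val (LinearMap.congr_fun hπ0 ⟨x, hx⟩)
  have hle : LinearMap.ker f ≤ LinearMap.ker (1 - π) := by
    intro x hx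
    rw [LinearMap.mem_ker, LinearMap.sub_apply, Module.End.one_apply, hπ2 x hx, sub_self]
  obtain ⟨s, hs⟩ := LinearMap.exists_extend
    (((LinearMap.ker f).liftQ (1 - π) hle) ∘ₗ f.quotKerEquivRange.symm.toLinearMap)
  refine ⟨π, s, LinearMap.ext fun x => hπ1 x, LinearMap.ext fun x => ?_⟩
  have h1 := LinearMap.congr_fun hs ⟨f x, x, rfl⟩
  have h2 : f.quotKerEquivRange.symm ⟨f x, x, rfl⟩ = (LinearMap.ker f).mkQ x := by
    rw [LinearEquiv.symm_apply_eq]
    rfl
  have h3 : (s * f) x = ((LinearMap.ker f).liftQ (1 - π) hle)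
      (f.quotKerEquivRange.symm ⟨f x, x, rfl⟩) := h1
  rw [h3, h2]
  rfl

/-- Operators which differ by a nilpotent one have the same trace on stable subspaces. -/
lemma trace_nil {U : Type} [AddCommGroup U] [Module Ω U] [FiniteDimensional Ω U]
    {A R π : Module.End Ω U} {S : Submodule Ω U} (hA : ∀ x ∈ S, A x ∈ S) (hR : ∀ x ∈ S, R x ∈ S)
    (hn : IsNilpotent (A - R)) (h1 : ∀ x, π x ∈ S) (h2 : ∀ x ∈ S, π x = x) :
    LinearMap.trace Ω S (A.restrict hA) = LinearMap.trace Ω U (R * π) := by
  have h3 : A.restrict hA = R.restrict hR + (A.restrict hA - R.restrict hR) := by abel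
  have h4 : IsNilpotent (A.restrict hA - R.restrict hR) := by
    obtain ⟨n, hn⟩ := hn
    refine ⟨n, ?_⟩
    apply LinearMap.ext
    intro x
    apply Subtype.ext
    have h8 : ∀ k : ℕ, ((((A.restrict hA - R.restrict hR) ^ k) x : S) : U) =
        ((A - R) ^ k) (x : U) := by
      intro k
      induction k with
      | zero => rw [pow_zero, pow_zero, Module.End.one_apply, Module.End.one_apply]
      | succ k ih =>
        rw [pow_succ', pow_succ', Module.End.mul_apply, Module.End.mul_apply, ← ih]
        rfl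
    rw [h8, hn]
    rfl
  rw [h3, map_add, (LinearMap.isNilpotent_trace_of_isNilpotent h4).eq_zero, add_zero,
    trace_proj hR h1 h2]

/-- The trace on the kernel of `N ^ j` after extension of scalars and semisimplification. -/
theorem WDRep.IsFrobeniusSemisimplification.trace {M : WDRep F v q V}
    {M' : WDRep Ω v q (ExtV Ω F V)} (h : M.IsFrobeniusSemisimplification M') (j : ℕ) (g : W) :
    LinearMap.trace Ω _ (M'.onKer j g) =
      algebraMap F Ω (LinearMap.trace F _ (M.onKer j g)) := by
  obtain ⟨π, s, hπ, hs⟩ := exists_projection (M.N ^ j)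
  have hN : M'.N ^ j = extMap Ω (M.N ^ j) := by
    rw [h.1.1]
    show (extMap Ω M.N) ^ j = _
    rw [extMap_pow]
  have h1 : ∀ x, extMap Ω π x ∈ LinearMap.ker (M'.N ^ j) := by
    intro x
    rw [LinearMap.mem_ker, hN]
    show (extMap Ω (M.N ^ j) * extMap Ω π) x = 0
    rw [← extMap_mul, hπ, extMap_zero, LinearMap.zero_apply]
  have h2 : ∀ x ∈ LinearMap.ker (M'.N ^ j), extMap Ω π x = x := by
    intro x hx
    rw [LinearMap.mem_ker, hN] at hx
    have h3 : extMap Ω (1 - π) x = 0 := by
      rw [hs, extMap_mul, Module.End.mul_apply, hx, map_zero]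
    rw [extMap_sub, LinearMap.sub_apply, extMap_one, Module.End.one_apply] at h3
    exact (sub_eq_zero.1 h3).symm
  have h3 : ∀ x ∈ LinearMap.ker (M'.N ^ j), (M.extendScalars Ω).r g x ∈
      LinearMap.ker (M'.N ^ j) := by
    rw [h.1.1]
    exact (M.extendScalars Ω).stable j g
  have h5 : LinearMap.trace Ω _ (M'.onKer j g) =
      LinearMap.trace Ω _ ((M.extendScalars Ω).r g * extMap Ω π) :=
    trace_nil (M'.stable j g) h3 (h.1.2 g).2 h1 h2
  have h7 : LinearMap.trace F _ (M.onKer j g) = LinearMap.trace F _ (M.r g * π) := by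
    symm
    apply trace_proj (M.stable j g)
    · intro x
      exact LinearMap.congr_fun hπ x
    · intro x hx
      have h8 : (M.N ^ j) x = 0 := hx
      have h9 := LinearMap.congr_fun hs x
      rw [Module.End.mul_apply, h8, map_zero, LinearMap.sub_apply, Module.End.one_apply] at h9
      exact (sub_eq_zero.1 h9).symm
  have h8 : LinearMap.trace Ω _ (extMap Ω (M.r g * π)) =
      algebraMap F Ω (LinearMap.trace F _ (M.r g * π)) := LinearMap.trace_baseChange _ _
  rw [h5, h7, ← h8, extMap_mul]
  rfl

end one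

section family

variable {W : Type} [Group W] [TopologicalSpace W] {v : W →* Multiplicative ℤ} {q : ℕ}
  {Λ : Type} {F : Λ → Type} [∀ l, Field (F l)] [∀ l, CharZero (F l)]
  {V : Λ → Type} [∀ l, AddCommGroup (V l)] [∀ l, Module (F l) (V l)]
  [∀ l, FiniteDimensional (F l) (V l)]

/-- The Frobenius-semisimplifications over a common field are isomorphic. -/
theorem Compatible.iso (hq : q ≠ 0) {M : ∀ l, WDRep (F l) v q (V l)} (h : Compatible M)
    (l l' : Λ) : SameSemisimplification (M l) (M l') := by
  intro Ω _ _ _ M₁ M₂ h₁ h₂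
  have : CharZero Ω := charZero_of_injective_algebraMap (algebraMap (F l) Ω).injective
  obtain ⟨e, he1, he2⟩ := iso_of_traces (Nat.cast_ne_zero.2 hq) h₁.2 h₂.2 (fun j g => by
    obtain ⟨P, hP⟩ := h j g
    rw [h₁.trace, h₂.trace, trace_rat (hP l), trace_rat (hP l')]
    simp)
  exact ⟨e, fun g x => he1 g x, fun x => he2 x⟩

end family

end Run7.h514.WD
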