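import Pool.Agent.Run7.h514.WD.Weight

/-!
# The weight-monodromy conjecture and independence of `ℓ`, continued
-/

set_option autoImplicit false
set_option linter.unusedSectionVars false

namespace Run7.h514.WD

open Module Polynomial

section one

variable {F : Type} [Field F] [CharZero F] {U U' : Type} [AddCommGroup U] [Module F U]
  [AddCommGroup U'] [Module F U'] [FiniteDimensional F U]

/-- Products of polynomials whose weights are multiples of `d`. -/
def IsMixed (q : ℕ) (d : ℤ) (h : ℚ[X]) : Prop :=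
  ∃ (S : Finset ℤ) (P : ℤ → ℚ[X]), (∀ k, IsWeil q (k * d) (P k)) ∧ h = ∏ k ∈ S, P k

lemma IsMixed.common {q : ℕ} {d : ℤ} {h h' : ℚ[X]} (H : IsMixed q d h) (H' : IsMixed q d h') :
    ∃ h'', IsMixed q d h'' ∧ h ∣ h'' ∧ h' ∣ h'' := by
  classical
  obtain ⟨S, P, hP, rfl⟩ := H
  obtain ⟨S', P', hP', rfl⟩ := H'
  refine ⟨∏ k ∈ S ∪ S', (P k * P' k), ⟨S ∪ S', fun k => P k * P' k,
    fun k => (hP k).mul (hP' k), rfl⟩, ?_, ?_⟩
  · exact (Finset.prod_dvd_prod_of_subset _ _ _ Finset.subset_union_left).trans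
      (Finset.prod_dvd_prod_of_dvd _ _ fun k _ => Dvd.intro _ rfl)
  · exact (Finset.prod_dvd_prod_of_subset _ _ _ Finset.subset_union_right).trans
      (Finset.prod_dvd_prod_of_dvd _ _ fun k _ => Dvd.intro_left _ rfl)

lemma pe_dvd {A : Module.End F U} {P Q : ℚ[X]} (h : P ∣ Q) {x : U} (hx : pe A P x = 0) :
    pe A Q x = 0 := by
  obtain ⟨C, rfl⟩ := h
  rw [mul_comm, pe_mul, Module.End.mul_apply, hx, map_zero]

/-- If `V` is the sum of its weight parts then `A` is killed by a mixed polynomial. -/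
lemma exists_mixed {q : ℕ} {d : ℤ} {A : Module.End F U}
    (h : ⨆ k : ℤ, weightPart q (k * d) A = ⊤) : ∃ P, IsMixed q d P ∧ pe A P = 0 := by
  classical
  let T : Submodule F U :=
    { carrier := {x | ∃ P, IsMixed q d P ∧ pe A P x = 0}
      add_mem' := by
        rintro x y ⟨P, hP, hx⟩ ⟨Q, hQ, hy⟩
        obtain ⟨R, hR, h1, h2⟩ := hP.common hQ
        exact ⟨R, hR, by rw [map_add, pe_dvd h1 hx, pe_dvd h2 hy, add_zero]⟩
      zero_mem' := ⟨1, ⟨∅, fun _ => 1, fun k => IsWeil.one _ _, by simp⟩, map_zero _⟩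
      smul_mem' := by
        rintro c x ⟨P, hP, hx⟩
        exact ⟨P, hP, by rw [map_smul, hx, smul_zero]⟩ }
  have hT : ∀ x, x ∈ T := by
    have h1 : (⨆ k : ℤ, weightPart q (k * d) A) ≤ T := by
      apply iSup_le
      rintro k x ⟨P, hP, hx⟩
      refine ⟨P, ⟨{k}, fun i => if i = k then P else 1, fun i => ?_, by simp⟩, hx⟩
      show IsWeil q (i * d) (if i = k then P else 1)
      by_cases hi : i = k
      · rw [if_pos hi, hi]
        exact hP
      · rw [if_neg hi]
        exact IsWeil.one _ _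
    rw [h] at h1
    exact fun x => h1 Submodule.mem_top
  let b := Module.finBasis F U
  have h2 : ∀ S : Finset (Fin (finrank F U)), ∃ P, IsMixed q d P ∧ ∀ i ∈ S, pe A P (b i) = 0 := by
    intro S
    induction S using Finset.induction_on with
    | empty => exact ⟨1, ⟨∅, fun _ => 1, fun k => IsWeil.one _ _, by simp⟩, by simp⟩
    | insert i S _ ih =>
      obtain ⟨P, hP, h3⟩ := ih
      obtain ⟨Q, hQ, h4⟩ := hT (b i)
      obtain ⟨R, hR, h5, h6⟩ := hP.common hQ
      refine ⟨R, hR, fun j hj => ?_⟩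
      rcases Finset.mem_insert.1 hj with rfl | hj
      · exact pe_dvd h6 h4
      · exact pe_dvd h5 (h3 j hj)
  obtain ⟨P, hP, h3⟩ := h2 Finset.univ
  exact ⟨P, hP, b.ext fun i => by rw [h3 i (Finset.mem_univ i), LinearMap.zero_apply]⟩

/-- The converse. -/
lemma iSup_of_mixed {q : ℕ} (hq : 1 < q) {d : ℤ} (hd : d ≠ 0) {A : Module.End F U} {P : ℚ[X]}
    (hP : IsMixed q d P) (h : pe A P = 0) : ⨆ k : ℤ, weightPart q (k * d) A = ⊤ := by
  classical
  obtain ⟨S, P, hP, rfl⟩ := hP
  have key : ∀ S : Finset ℤ, LinearMap.ker (pe A (∏ k ∈ S, P k)) ≤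
      ⨆ k : ℤ, weightPart q (k * d) A := by
    intro S
    induction S using Finset.induction_on with
    | empty =>
      rw [Finset.prod_empty, pe_one]
      intro x hx
      rw [LinearMap.mem_ker, Module.End.one_apply] at hx
      rw [hx]
      exact Submodule.zero_mem _
    | insert k S hk ih =>
      rw [Finset.prod_insert hk]
      have h1 : IsCoprime (P k) (∏ i ∈ S, P i) := IsCoprime.prod_right fun i hi =>
        (hP k).coprime hq (fun h2 => hk (by
          have h3 : k = i := mul_right_cancel₀ hd h2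
          rwa [h3])) (hP i)
      have h2 : IsCoprime ((P k).map (algebraMap ℚ F)) ((∏ i ∈ S, P i).map (algebraMap ℚ F)) :=
        h1.map (mapRingHom (algebraMap ℚ F))
      have h3 := sup_ker_aeval_eq_ker_aeval_mul_of_coprime A h2
      rw [← Polynomial.map_mul] at h3
      show LinearMap.ker (aeval A ((P k * ∏ i ∈ S, P i).map (algebraMap ℚ F))) ≤ _
      rw [← h3]
      refine sup_le ?_ ih
      intro x hx
      exact Submodule.mem_iSup_of_mem k ⟨P k, hP k, hx⟩
  rw [eq_top_iff]
  intro x _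
  apply key S
  rw [LinearMap.mem_ker, h, LinearMap.zero_apply]

/-- The map `T` multiplies eigenvalues by `c⁻¹`. -/
lemma weight_shift {q : ℕ} (hq : 0 < q) {m n : ℤ} {A : Module.End F U} {B : Module.End F U'}
    {T : U →ₗ[F] U'} (h : ∀ x, T (A x) = ((q : F) ^ n) • B (T x)) {x : U}
    (hx : x ∈ weightPart q m A) : T x ∈ weightPart q (m - 2 * n) B := by
  obtain ⟨P, hP, hx⟩ := hx
  have hq0 : (q : ℚ) ≠ 0 := Nat.cast_ne_zero.2 hq.ne'
  have hqc : (q : ℂ) ≠ 0 := Nat.cast_ne_zero.2 hq.ne'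
  have hqr : (0 : ℝ) < q := Nat.cast_pos.2 hq
  have hc : ((q : ℚ) ^ n) ≠ 0 := zpow_ne_zero _ hq0
  refine ⟨P.comp (C ((q : ℚ) ^ n) * X), ⟨?_, fun z hz => ?_⟩, ?_⟩
  · intro h0
    apply hP.1
    have h1 := congrArg (fun Q : ℚ[X] => Q.comp (C ((q : ℚ) ^ n)⁻¹ * X)) h0
    simp only [zero_comp] at h1
    rw [comp_assoc, mul_comp, C_comp, X_comp, ← mul_assoc, ← C_mul, mul_inv_cancel₀ hc, C_1,
      one_mul, comp_X] at h1
    exact h1
  · rw [aeval_comp] at hz
    have h1 := hP.2 _ hz
    rw [map_mul, aeval_C, aeval_X, norm_mul, mul_pow, map_zpow₀, map_natCast, norm_zpow,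
      Complex.norm_natCast] at h1
    have h2 : ‖z‖ ^ 2 = ((((q : ℝ) ^ n) ^ 2))⁻¹ * (q : ℝ) ^ m := by
      rw [← h1, ← mul_assoc, inv_mul_cancel₀ (pow_ne_zero _ (zpow_ne_zero _ hqr.ne')), one_mul]
    rw [h2, ← zpow_natCast, ← zpow_mul, ← zpow_neg, ← zpow_add₀ hqr.ne']
    congr 1
    push_cast
    ring
  · have h3 : aeval B ((P.comp (C ((q : ℚ) ^ n) * X)).map (algebraMap ℚ F)) =
        pe (((q : F) ^ n) • B) P := by
      unfold pe
      rw [Polynomial.map_comp, aeval_comp, Polynomial.map_mul, map_X, map_C, map_mul, aeval_C,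
        aeval_X, map_zpow₀, map_natCast, ← Algebra.smul_def]
    rw [h3]
    have h4 : T (pe A P x) = pe (((q : F) ^ n) • B) P (T x) := pe_intertwine T h P x
    have h5 : pe A P x = 0 := hx
    rw [← h4, h5, map_zero]

/-- Weight parts under an equivariant injection. -/
lemma weight_map {q : ℕ} {m : ℤ} {A : Module.End F U} {B : Module.End F U'} {T : U →ₗ[F] U'}
    (h : ∀ x, T (A x) = B (T x)) (hT : Function.Injective T) {x : U} :
    x ∈ weightPart q m A ↔ T x ∈ weightPart q m B := by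
  constructor
  · rintro ⟨P, hP, hx⟩
    refine ⟨P, hP, ?_⟩
    have h4 : T (pe A P x) = pe B P (T x) := pe_intertwine T h P x
    have h5 : pe A P x = 0 := hx
    show pe B P (T x) = 0
    rw [← h4, h5, map_zero]
  · rintro ⟨P, hP, hx⟩
    refine ⟨P, hP, ?_⟩
    have h4 : T (pe A P x) = pe B P (T x) := pe_intertwine T h P x
    have h5 : pe B P (T x) = 0 := hx
    show pe A P x = 0
    apply hT
    rw [h4, h5, map_zero]

end one

section family

variable {W : Type} [Group W] [TopologicalSpace W] {v : W →* Multiplicative ℤ} {q : ℕ}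
  {Λ : Type} {F : Λ → Type} [∀ l, Field (F l)] [∀ l, CharZero (F l)]
  {U : Λ → Type} [∀ l, AddCommGroup (U l)] [∀ l, Module (F l) (U l)]
  [∀ l, FiniteDimensional (F l) (U l)]

lemma traces (ρ : ∀ l, W →* Module.End (F l) (U l))
    (h : ∀ g, ∃ P : ℚ[X], ∀ l, (ρ l g).charpoly = P.map (algebraMap ℚ (F l))) (g : W) (P : ℚ[X]) :
    ∃ t : ℚ, ∀ l, LinearMap.trace (F l) (U l) (pe (ρ l g) P) = (t : F l) := by
  choose R hR using h
  refine ⟨∑ k ∈ Finset.range (P.natDegree + 1), P.coeff k * (-(R (g ^ k)).nextCoeff),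
    fun l => ?_⟩
  rw [trace_pe]
  push_cast
  refine Finset.sum_congr rfl fun k _ => ?_
  rw [← MonoidHom.map_pow, trace_rat (hR (g ^ k) l)]
  push_cast
  rfl

/-- The dimensions of the weight parts do not depend on `ℓ`. -/
lemma finrank_const (ρ : ∀ l, W →* Module.End (F l) (U l))
    (h : ∀ g, ∃ P : ℚ[X], ∀ l, (ρ l g).charpoly = P.map (algebraMap ℚ (F l))) (g : W) (m : ℤ)
    (l l' : Λ) : finrank (F l) (weightPart q m (ρ l g)) =
      finrank (F l') (weightPart q m (ρ l' g)) := by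
  obtain ⟨f, hf⟩ := h g
  have hf0 : f ≠ 0 := by
    rintro rfl
    have h1 := hf l
    rw [Polynomial.map_zero] at h1
    exact (LinearMap.charpoly_monic (ρ l g)).ne_zero h1
  obtain ⟨a, b, hab, ha, hb⟩ := exists_split q m f hf0
  obtain ⟨u, w, huw⟩ := hb a ha
  obtain ⟨t, ht⟩ := traces ρ h g (u * b)
  have h1 := finrank_weightPart (hf l) hab ha hb huw
  have h2 := finrank_weightPart (hf l') hab ha hb huw
  rw [ht] at h1 h2
  have h3 : ((finrank (F l) (weightPart q m (ρ l g)) : ℚ)) = t := by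
    apply Rat.cast_injective (α := F l)
    rw [← h1, Rat.cast_natCast]
  have h4 : ((finrank (F l') (weightPart q m (ρ l' g)) : ℚ)) = t := by
    apply Rat.cast_injective (α := F l')
    rw [← h2, Rat.cast_natCast]
  rw [← h4] at h3
  exact_mod_cast h3

/-- The mixedness does not depend on `ℓ`. -/
lemma mixed_const (hq : 1 < q) (ρ : ∀ l, W →* Module.End (F l) (U l))
    (h : ∀ g, ∃ P : ℚ[X], ∀ l, (ρ l g).charpoly = P.map (algebraMap ℚ (F l))) (g : W) {d : ℤ}
    (hd : d ≠ 0) (l l' : Λ) (hl : ⨆ k : ℤ, weightPart q (k * d) (ρ l g) = ⊤) :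
    ⨆ k : ℤ, weightPart q (k * d) (ρ l' g) = ⊤ := by
  obtain ⟨P, hP, h1⟩ := exists_mixed hl
  have h2 : pe (ρ l' g) P ^ finrank (F l') (U l') = 0 := by
    apply nilp
    intro k hk
    have h3 : ∀ l, pe (ρ l g) P ^ k = pe (ρ l g) (P ^ k) := by
      intro l
      unfold pe
      rw [Polynomial.map_pow, map_pow]
    obtain ⟨t, ht⟩ := traces ρ h g (P ^ k)
    have h4 := ht l
    rw [← h3, h1, zero_pow hk.ne', map_zero] at h4
    have h5 : t = 0 := by
      apply Rat.cast_injective (α := F l)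
      rw [← h4, Rat.cast_zero]
    rw [h3, ht, h5, Rat.cast_zero]
  obtain ⟨S, P, hP, rfl⟩ := hP
  refine iSup_of_mixed hq hd (P := (∏ k ∈ S, P k) ^ finrank (F l') (U l'))
    ⟨S, fun k => P k ^ finrank (F l') (U l'), fun k => (hP k).pow _, ?_⟩ ?_
  · rw [Finset.prod_pow]
  · rw [← h2]
    unfold pe
    rw [Polynomial.map_pow, map_pow]

variable {V : Λ → Type} [∀ l, AddCommGroup (V l)] [∀ l, Module (F l) (V l)]
  [∀ l, FiniteDimensional (F l) (V l)]

/-- **The weight-monodromy conjecture does not depend on `ℓ`**, for compatible families. -/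
theorem Compatible.weightMonodromy (hq : 1 < q) {M : ∀ l, WDRep (F l) v q (V l)}
    (h : Compatible M) (l l' : Λ) (w : ℤ) (hl : (M l).WeightMonodromy w) :
    (M l').WeightMonodromy w := by
  intro g hg
  obtain ⟨h1, h2⟩ := hl g hg
  unfold WDRep.part at h1 h2 ⊢
  obtain ⟨d, hd⟩ : ∃ d, d = Multiplicative.toAdd (v g) := ⟨_, rfl⟩
  rw [← hd] at h1 h2 hg ⊢
  refine ⟨mixed_const hq (fun l => (M l).r) (fun g => h.whole g) g hg.ne' l l' h1, fun j => ?_⟩
  have h3 := h2 j
  -- `N ^ j` maps the weight parts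
  have hmap : ∀ l, ∀ x ∈ weightPart q ((w + j) * d) ((M l).r g), ((M l).N ^ j) x ∈
      weightPart q ((w - j) * d) ((M l).r g) := by
    intro l x hx
    have h4 := weight_shift (T := (M l).N ^ j) (B := (M l).r g) (n := d * j) (by omega)
      (fun x => by
        rw [(M l).pow_twist g j x, ← hd, ← zpow_natCast, ← zpow_mul]) hx
    rwa [show (w + (j : ℤ)) * d - 2 * (d * j) = (w - j) * d by ring] at h4
  -- injectivity
  have hker : ∀ l, finrank (F l) (weightPart q ((w + j) * d) ((M l).onKer j g)) = 0 ↔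
      ∀ x ∈ weightPart q ((w + j) * d) ((M l).r g), ((M l).N ^ j) x = 0 → x = 0 := by
    intro l
    rw [Submodule.finrank_eq_zero]
    constructor
    · intro h4 x hx h5
      have h6 : (⟨x, h5⟩ : LinearMap.ker ((M l).N ^ j)) ∈
          weightPart q ((w + j) * d) ((M l).onKer j g) :=
        (weight_map (T := (LinearMap.ker ((M l).N ^ j)).subtype) (fun _ => rfl)
          Subtype.val_injective).2 hx
      rw [h4, Submodule.mem_bot] at h6
      exact congrArg Subtype.val h6
    · intro h4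
      rw [eq_bot_iff]
      intro x hx
      have h5 := (weight_map (T := (LinearMap.ker ((M l).N ^ j)).subtype)
        (B := (M l).r g) (fun _ => rfl) Subtype.val_injective).1 hx
      rw [Submodule.mem_bot]
      exact Subtype.ext (h4 _ h5 x.2)
  have hinj : ∀ x ∈ weightPart q ((w + j) * d) ((M l').r g), ((M l').N ^ j) x = 0 → x = 0 := by
    have hfc : finrank (F l') (weightPart q ((w + j) * d) ((M l').onKer j g)) =
        finrank (F l) (weightPart q ((w + j) * d) ((M l).onKer j g)) :=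
      finrank_const (fun l => (M l).kerRep j) (fun g => h j g) g _ l' l
    rw [← hker l', hfc]
    refine (hker l).2 fun x hx h4 => ?_
    exact h3.injOn hx (Submodule.zero_mem _) (by rw [h4, map_zero])
  -- the dimensions
  have hdim : ∀ l, Set.BijOn ((M l).N ^ j) (weightPart q ((w + j) * d) ((M l).r g))
      (weightPart q ((w - j) * d) ((M l).r g)) →
      finrank (F l) (weightPart q ((w + j) * d) ((M l).r g)) =
        finrank (F l) (weightPart q ((w - j) * d) ((M l).r g)) := by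
    intro l hb
    let T : weightPart q ((w + j) * d) ((M l).r g) →ₗ[F l]
        weightPart q ((w - j) * d) ((M l).r g) := ((M l).N ^ j).restrict (hmap l)
    refine LinearEquiv.finrank_eq (LinearEquiv.ofBijective T ⟨fun x y hxy => ?_, fun y => ?_⟩)
    · exact Subtype.ext (hb.injOn x.2 y.2 (congrArg Subtype.val hxy))
    · obtain ⟨x, hx, hxy⟩ := hb.surjOn y.2
      exact ⟨⟨x, hx⟩, Subtype.ext hxy⟩
  have hdim' : finrank (F l') (weightPart q ((w + j) * d) ((M l').r g)) =
      finrank (F l') (weightPart q ((w - j) * d) ((M l').r g)) := by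
    rw [← finrank_const (fun l => (M l).r) (fun g => h.whole g) g _ l l',
      ← finrank_const (fun l => (M l).r) (fun g => h.whole g) g _ l l']
    exact hdim l h3
  let T : weightPart q ((w + j) * d) ((M l').r g) →ₗ[F l']
      weightPart q ((w - j) * d) ((M l').r g) := ((M l').N ^ j).restrict (hmap l')
  have hTi : Function.Injective T := by
    rw [← LinearMap.ker_eq_bot, LinearMap.ker_eq_bot']
    intro x hx
    exact Subtype.ext (hinj x x.2 (congrArg Subtype.val hx))
  have hTs : Function.Surjective T :=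
    (LinearMap.injective_iff_surjective_of_finrank_eq_finrank hdim').1 hTi
  refine ⟨fun x hx => hmap l' x hx, fun x hx y hy hxy => ?_, fun y hy => ?_⟩
  · exact congrArg Subtype.val (hTi (a₁ := ⟨x, hx⟩) (a₂ := ⟨y, hy⟩) (Subtype.ext hxy))
  · obtain ⟨x, hx⟩ := hTs ⟨y, hy⟩
    exact ⟨x, x.2, congrArg Subtype.val hx⟩

end family

end Run7.h514.WD
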