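import Pool.Agent.Run7.h514.WD.Semi
import Mathlib.FieldTheory.IsAlgClosed.Basic
import Mathlib.Analysis.Complex.Polynomial.Basic

/-!
# The weight-monodromy conjecture and independence of `ℓ`
-/

set_option autoImplicit false
set_option linter.unusedSectionVars false

namespace Run7.h514.WD

open Module Polynomial

section one

variable {F : Type} [Field F] [CharZero F] {U U' : Type} [AddCommGroup U] [Module F U]
  [AddCommGroup U'] [Module F U']

/-- the value of a rational polynomial -/
noncomputable def pe (A : Module.End F U) (P : ℚ[X]) : Module.End F U :=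
  aeval A (P.map (algebraMap ℚ F))

lemma pe_mul (A : Module.End F U) (P Q : ℚ[X]) : pe A (P * Q) = pe A P * pe A Q := by
  unfold pe
  rw [Polynomial.map_mul, map_mul]

lemma pe_add (A : Module.End F U) (P Q : ℚ[X]) : pe A (P + Q) = pe A P + pe A Q := by
  unfold pe
  rw [Polynomial.map_add, map_add]

lemma pe_one (A : Module.End F U) : pe A 1 = 1 := by
  unfold pe
  rw [Polynomial.map_one, map_one]

lemma pe_intertwine {A : Module.End F U} {B : Module.End F U'} (T : U →ₗ[F] U')
    (h : ∀ x, T (A x) = B (T x)) (P : ℚ[X]) (x : U) : T (pe A P x) = pe B P (T x) := by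
  unfold pe
  induction P using Polynomial.induction_on' generalizing x with
  | add p q hp hq =>
    rw [Polynomial.map_add, map_add, map_add, LinearMap.add_apply, LinearMap.add_apply, map_add,
      hp, hq]
  | monomial n c =>
    rw [Polynomial.map_monomial, aeval_monomial, aeval_monomial, ← Algebra.smul_def,
      ← Algebra.smul_def, LinearMap.smul_apply, LinearMap.smul_apply, map_smul]
    congr 1
    induction n generalizing x with
    | zero => rw [pow_zero, pow_zero, Module.End.one_apply, Module.End.one_apply]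
    | succ n ih =>
      rw [pow_succ, pow_succ, Module.End.mul_apply, Module.End.mul_apply, ih, h]

lemma trace_pe (A : Module.End F U) (P : ℚ[X]) : LinearMap.trace F U (pe A P) =
    ∑ k ∈ Finset.range (P.natDegree + 1), (P.coeff k : F) * LinearMap.trace F U (A ^ k) := by
  unfold pe
  rw [aeval_eq_sum_range, natDegree_map, map_sum]
  refine Finset.sum_congr rfl fun k _ => ?_
  rw [map_smul, coeff_map, smul_eq_mul]
  rfl

lemma IsWeil.one (q : ℕ) (m : ℤ) : IsWeil q m 1 :=
  ⟨one_ne_zero, fun z hz => by simp at hz⟩

lemma IsWeil.pow {q : ℕ} {m : ℤ} {P : ℚ[X]} (h : IsWeil q m P) (n : ℕ) : IsWeil q m (P ^ n) := by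
  induction n with
  | zero => rw [pow_zero]; exact IsWeil.one q m
  | succ n ih => rw [pow_succ]; exact ih.mul h

/-- Polynomials of different weights are coprime. -/
lemma IsWeil.coprime {q : ℕ} (hq : 1 < q) {m m' : ℤ} (hm : m ≠ m') {P Q : ℚ[X]}
    (hP : IsWeil q m P) (hQ : IsWeil q m' Q) : IsCoprime P Q := by
  rw [isCoprime_iff_aeval_ne_zero_of_isAlgClosed (k := ℚ) ℂ]
  intro z
  by_contra h0
  push Not at h0
  have h1 := hP.2 z h0.1
  rw [hQ.2 z h0.2] at h1
  have hq' : (1 : ℝ) < q := by exact_mod_cast hq
  exact hm (zpow_right_injective₀ (by linarith) hq'.ne' h1).symm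

/-- The factor of weight `m`. -/
lemma exists_split (q : ℕ) (m : ℤ) (f : ℚ[X]) (hf : f ≠ 0) : ∃ a b : ℚ[X], f = a * b ∧
    IsWeil q m a ∧ ∀ P, IsWeil q m P → IsCoprime b P := by
  induction f using WfDvdMonoid.induction_on_irreducible with
  | zero => exact absurd rfl hf
  | unit u hu =>
    exact ⟨1, u, by rw [one_mul], IsWeil.one q m, fun P _ => by
      obtain ⟨c, hc⟩ := hu.exists_left_inv
      exact ⟨c, 0, by rw [hc, zero_mul, add_zero]⟩⟩
  | mul a i ha hi ih =>
    obtain ⟨A, B, hAB, hA, hB⟩ := ih ha
    by_cases h1 : IsWeil q m i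
    · exact ⟨i * A, B, by rw [hAB, mul_assoc], h1.mul hA, hB⟩
    · refine ⟨A, i * B, by rw [hAB]; ring, hA, fun P hP => ?_⟩
      refine IsCoprime.mul_left ?_ (hB P hP)
      by_cases h2 : i ∣ P
      swap
      · exact hi.coprime_iff_not_dvd.2 h2
      · exfalso
        apply h1
        refine ⟨hi.ne_zero, fun z hz => hP.2 z ?_⟩
        obtain ⟨C, rfl⟩ := h2
        rw [map_mul, hz, zero_mul]

variable [FiniteDimensional F U]

lemma pe_charpoly {A : Module.End F U} {f : ℚ[X]} (h : A.charpoly = f.map (algebraMap ℚ F)) :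
    pe A f = 0 := by
  unfold pe
  rw [← h]
  exact LinearMap.aeval_self_charpoly A

/-- The dimension of the part of weight `m` is the trace of a rational polynomial in `A`. -/
lemma finrank_weightPart {q : ℕ} {m : ℤ} {A : Module.End F U} {f a b u w : ℚ[X]}
    (h : A.charpoly = f.map (algebraMap ℚ F)) (hab : f = a * b) (ha : IsWeil q m a)
    (hb : ∀ P, IsWeil q m P → IsCoprime b P) (huw : u * b + w * a = 1) :
    (finrank F (weightPart q m A) : F) = LinearMap.trace F U (pe A (u * b)) := by
  have h0 : ∀ x, pe A (a * b) x = 0 := fun x => by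
    rw [← hab, pe_charpoly h, LinearMap.zero_apply]
  have h1 : ∀ x, pe A (u * b) x ∈ weightPart q m A := by
    intro x
    refine ⟨a, ha, ?_⟩
    show pe A a (pe A (u * b) x) = 0
    rw [← Module.End.mul_apply, ← pe_mul, show a * (u * b) = u * (a * b) by ring, pe_mul,
      Module.End.mul_apply, h0, map_zero]
  have h2 : ∀ x ∈ weightPart q m A, pe A (u * b) x = x := by
    rintro x ⟨P, hP, hx⟩
    have hx' : pe A P x = 0 := hx
    obtain ⟨s, t, hst⟩ := hb P hP
    have h3 : x = pe A (s * b) x := by
      have h4 : pe A (s * b + t * P) x = x := by rw [hst, pe_one, Module.End.one_apply]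
      rw [pe_add, LinearMap.add_apply, pe_mul A t P, Module.End.mul_apply, hx', map_zero,
        add_zero] at h4
      exact h4.symm
    have h4 : pe A a x = 0 := by
      rw [h3, ← Module.End.mul_apply, ← pe_mul, show a * (s * b) = s * (a * b) by ring, pe_mul,
        Module.End.mul_apply, h0, map_zero]
    have h5 : pe A (u * b + w * a) x = x := by rw [huw, pe_one, Module.End.one_apply]
    rw [pe_add, LinearMap.add_apply, pe_mul A w a, Module.End.mul_apply, h4, map_zero,
      add_zero] at h5
    exact h5
  have h3 := trace_proj (S := weightPart q m A) (g := 1) (fun x hx => hx) h1 h2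
  rw [one_mul] at h3
  rw [h3]
  have h4 : (1 : Module.End F U).restrict (p := weightPart q m A) (q := weightPart q m A)
      (fun x hx => hx) = 1 := by
    apply LinearMap.ext
    intro x
    rfl
  rw [h4, LinearMap.trace_one]

/-- An endomorphism whose powers have trace zero is nilpotent. -/
lemma nilp (A : Module.End F U) (h : ∀ k, 0 < k → LinearMap.trace F U (A ^ k) = 0) :
    A ^ finrank F U = 0 := by
  classical
  let b := Module.finBasis F U
  let B := LinearMap.toMatrix b b A
  have hcf : ∀ k, Pool.Agent.R401.Tr4.cf (fun _ => 0) (k + 1) = 0 := by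
    intro k
    have h1 := Pool.Agent.R401.Tr4.cf_succ (fun _ => 0) k
    simp only [mul_zero, Finset.sum_const_zero, neg_zero] at h1
    have h2 : ((k : ℚ) + 1) ≠ 0 := by positivity
    exact (mul_eq_zero.1 h1).resolve_right h2
  have hB : ∀ k, B.charpolyRev.coeff k = (Pool.Agent.R401.Tr4.cf (fun _ => 0) k : F) := by
    intro k
    apply Pool.Agent.R401.Tr4.coeff_eq
    intro k
    rw [Rat.cast_zero, ← h (k + 1) (Nat.succ_pos k), LinearMap.trace_eq_matrix_trace F b,
      ← LinearMap.toMatrix_pow]
  have hch : A.charpoly = X ^ finrank F U := by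
    ext k
    rw [← LinearMap.charpoly_toMatrix A b, coeff_X_pow]
    have h1 : B.charpoly.coeff k = B.charpolyRev.coeff (revAt (finrank F U) k) := by
      rw [← Matrix.reverse_charpoly, coeff_reverse, Matrix.charpoly_natDegree_eq_dim,
        Fintype.card_fin, revAt_invol]
    show B.charpoly.coeff k = _
    rw [h1, hB]
    by_cases hk : k = finrank F U
    · rw [if_pos hk, hk, revAt_le le_rfl, Nat.sub_self, Pool.Agent.R401.Tr4.cf_zero, Rat.cast_one]
    · rw [if_neg hk]
      rcases Nat.lt_or_ge k (finrank F U) with h2 | h2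
      · rw [revAt_le h2.le, show finrank F U - k = (finrank F U - k - 1) + 1 by omega, hcf,
          Rat.cast_zero]
      · rw [revAt_eq_self_of_lt (by omega), show k = (k - 1) + 1 by omega, hcf, Rat.cast_zero]
  have h1 := LinearMap.aeval_self_charpoly A
  rw [hch] at h1
  simpa using h1

end one

end Run7.h514.WD
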